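import Mathlib

namespace Pool.Agent.Lib_MP_53dcbc_co

open Subgroup
open scoped Pointwise

variable {G : Type*} [Group G]

/-- Three subgroups of order `s` with pairwise trivial intersections. -/
def IsPCP (s : ℕ) (U : Fin 3 → Subgroup G) : Prop :=
  (∀ i, Nat.card (U i) = s) ∧ ∀ i j, i ≠ j → U i ⊓ U j = ⊥

/-- conjugate subgroup `g H g⁻¹` -/
def cj (g : G) (H : Subgroup G) : Subgroup G := H.map (MulAut.conj g).toMonoidHom

theorem mem_cj {g x : G} {H : Subgroup G} : x ∈ cj g H ↔ g⁻¹ * x * g ∈ H := by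
  unfold cj
  rw [Subgroup.mem_map]
  constructor
  · rintro ⟨y, hy, rfl⟩
    simpa [mul_assoc] using hy
  · intro h
    exact ⟨g⁻¹ * x * g, h, by simp [mul_assoc]⟩

theorem card_cj (g : G) (H : Subgroup G) : Nat.card (cj g H) = Nat.card H := by
  unfold cj
  exact (Subgroup.card_map_of_injective (MulAut.conj g).injective)

theorem IsPCP.exists_mul [Finite G] {s : ℕ} {U : Fin 3 → Subgroup G} (hU : IsPCP s U)
    (hG : Nat.card G = s ^ 2) {i j : Fin 3} (hij : i ≠ j) (g : G) :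
    ∃ a ∈ U i, ∃ b ∈ U j, g = a * b := by
  have h : IsComplement' (U i) (U j) := by
    apply isComplement'_of_card_mul_and_disjoint
    · rw [hU.1, hU.1, hG, sq]
    · rw [disjoint_iff]
      exact hU.2 i j hij
  obtain ⟨⟨a, b⟩, hab⟩ := h.2 g
  exact ⟨a, a.2, b, b.2, hab.symm⟩

theorem IsPCP.no_fusion [Finite G] {s : ℕ} {U : Fin 3 → Subgroup G} (hU : IsPCP s U)
    (hG : Nat.card G = s ^ 2) {i j : Fin 3} (hij : i ≠ j) {g x : G} (hx : x ∈ U i)
    (hg : g * x * g⁻¹ ∈ U j) : x = 1 := by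
  obtain ⟨a, ha, b, hb, hab⟩ := hU.exists_mul hG hij.symm g
  have h1 : b * x * b⁻¹ ∈ U j := by
    have : b * x * b⁻¹ = a⁻¹ * (g * x * g⁻¹) * a := by
      rw [hab]; group
    rw [this]
    exact mul_mem (mul_mem (inv_mem ha) hg) ha
  have h2 : b * x * b⁻¹ ∈ U i := mul_mem (mul_mem hb hx) (inv_mem hb)
  have h3 : b * x * b⁻¹ ∈ U i ⊓ U j := ⟨h2, h1⟩
  rw [hU.2 i j hij, mem_bot] at h3
  have h4 : x = b⁻¹ * (b * x * b⁻¹) * b := by group
  rw [h4, h3]; simp

theorem IsPCP.conj [Finite G] {s : ℕ} {U : Fin 3 → Subgroup G} (hU : IsPCP s U)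
    (hG : Nat.card G = s ^ 2) (g : Fin 3 → G) : IsPCP s (fun i => cj (g i) (U i)) := by
  refine ⟨fun i => by rw [card_cj, hU.1], fun i j hij => ?_⟩
  rw [eq_bot_iff]
  rintro x ⟨h1, h2⟩
  have h1' := mem_cj.1 h1
  have h2' := mem_cj.1 h2
  have : ((g j)⁻¹ * g i) * ((g i)⁻¹ * x * g i) * ((g j)⁻¹ * g i)⁻¹ ∈ U j := by
    have e : ((g j)⁻¹ * g i) * ((g i)⁻¹ * x * g i) * ((g j)⁻¹ * g i)⁻¹ = (g j)⁻¹ * x * g j := by
      group
    rw [e]; exact h2'
  have h3 := hU.no_fusion hG hij h1' this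
  rw [mem_bot]
  have h4 : x = g i * ((g i)⁻¹ * x * g i) * (g i)⁻¹ := by group
  rw [h4, h3]; simp

/-- in a common Sylow subgroup -/
theorem IsPCP.exists_common [Finite G] {s : ℕ} {U : Fin 3 → Subgroup G} (hU : IsPCP s U)
    {q : ℕ} [hq : Fact q.Prime] (hqs : q ∣ s) (Q : Sylow q G) :
    ∃ (g y : Fin 3 → G), ∀ i, y i ∈ cj (g i) (U i) ∧ y i ∈ Q ∧ orderOf (y i) = q := by
  have key : ∀ i, ∃ g y : G, y ∈ cj g (U i) ∧ y ∈ Q ∧ orderOf y = q := by
    intro i
    have : Finite (U i) := inferInstance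
    obtain ⟨x, hx⟩ := exists_prime_orderOf_dvd_card' (G := U i) q (by rw [hU.1]; exact hqs)
    have hpg : IsPGroup q (zpowers (x : G)) := by
      apply IsPGroup.of_card (n := 1)
      rw [Nat.card_zpowers, pow_one]
      rw [Subgroup.orderOf_coe]; exact hx
    obtain ⟨Q', hQ'⟩ := hpg.exists_le_sylow
    obtain ⟨g, hg⟩ := MulAction.exists_smul_eq G Q' Q
    refine ⟨g, g * x * g⁻¹, ?_, ?_, ?_⟩
    · rw [mem_cj]
      have : g⁻¹ * (g * (x:G) * g⁻¹) * g = x := by group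
      rw [this]; exact x.2
    · rw [← hg]
      have h1 : (x : G) ∈ (Q' : Subgroup G) := hQ' (mem_zpowers _)
      have h2 : MulAut.conj g • (x : G) ∈ MulAut.conj g • (Q' : Subgroup G) :=
        Subgroup.smul_mem_pointwise_smul _ _ _ h1
      have h3 : g * (x : G) * g⁻¹ ∈ ((g • Q' : Sylow q G) : Subgroup G) := by
        rw [Sylow.coe_subgroup_smul]
        simpa [MulAut.smul_def] using h2
      exact h3
    · have h1 : orderOf (MulAut.conj g (x : G)) = orderOf (x : G) := 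
        orderOf_injective (MulAut.conj g).toMonoidHom (MulAut.conj g).injective (x : G)
      rw [MulAut.conj_apply] at h1
      rw [h1, Subgroup.orderOf_coe]; exact hx
  choose g y h using key
  exact ⟨g, y, h⟩

end Pool.Agent.Lib_MP_53dcbc_co
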