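import Pool.Agent.Lib_MP_53dcbc_co.Main

namespace Pool.Agent.Lib_MP_53dcbc_co

open Subgroup
open scoped Pointwise

universe u

theorem Chain.cons {G : Type u} [Group G] {A B : Subgroup G} (hA : A.Normal) (hAB : A ≤ B)
    (hp : (A.relIndex B).Prime) (h : Chain B) : Chain A := by
  obtain ⟨n, N, h0, hn, hnor, hstep⟩ := h
  refine ⟨n + 1, fun i => if i = 0 then A else N (i - 1), ?_, ?_, ?_, ?_⟩
  · simp
  · simpa using hn
  · intro i
    by_cases hi : i = 0
    · simp only [hi, if_true]; exact hA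
    · simp only [hi, if_false]; exact hnor _
  · intro i hi
    by_cases h1 : i = 0
    · subst h1
      simp only [if_true, Nat.zero_add, one_ne_zero, if_false, Nat.sub_self, h0]
      exact ⟨hAB, hp⟩
    · have h2 : i + 1 - 1 = (i - 1) + 1 := by omega
      simp only [h1, if_false, Nat.succ_ne_zero, h2]
      exact hstep (i - 1) (by omega)

theorem Chain.comap {G : Type u} [Group G] {N : Subgroup G} [N.Normal]
    (h : Chain (⊥ : Subgroup (G ⧸ N))) : Chain N := by
  obtain ⟨n, M, h0, hn, hnor, hstep⟩ := h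
  refine ⟨n, fun i => (M i).comap (QuotientGroup.mk' N), ?_, ?_, ?_, ?_⟩
  · simp only [h0]
    rw [MonoidHom.comap_bot, QuotientGroup.ker_mk']
  · simp only [hn, comap_top]
  · intro i
    exact (hnor i).comap _
  · intro i hi
    refine ⟨comap_mono (hstep i hi).1, ?_⟩
    rw [relIndex_comap, map_comap_eq_self_of_surjective (QuotientGroup.mk'_surjective N)]
    exact (hstep i hi).2

theorem card_comap_mk {G : Type u} [Group G] [Finite G] {N : Subgroup G} [N.Normal]
    (M : Subgroup (G ⧸ N)) :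
    Nat.card (M.comap (QuotientGroup.mk' N)) = Nat.card N * Nat.card M := by
  have h1 := card_mul_index (M.comap (QuotientGroup.mk' N))
  rw [index_comap_of_surjective M (QuotientGroup.mk'_surjective N),
    card_eq_card_quotient_mul_card_subgroup N, ← card_mul_index M] at h1
  have h2 : 0 < M.index := Nat.pos_of_ne_zero index_ne_zero_of_finite
  apply Nat.eq_of_mul_eq_mul_right h2
  rw [h1]; ring

theorem exists_max_prime {s : ℕ} (h0 : s ≠ 0) (h1 : s ≠ 1) :
    ∃ p, p.Prime ∧ p ∣ s ∧ ∀ r, r.Prime → r ∣ s → r ≤ p := by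
  have hne : s.primeFactors.Nonempty := Nat.nonempty_primeFactors.2 (by omega)
  refine ⟨s.primeFactors.max' hne, ?_, ?_, ?_⟩
  · exact Nat.prime_of_mem_primeFactors (Finset.max'_mem _ hne)
  · exact Nat.dvd_of_mem_primeFactors (Finset.max'_mem _ hne)
  · intro r hr hd
    exact Finset.le_max' _ _ (Nat.mem_primeFactors.2 ⟨hr, hd, h0⟩)

/-- normal line from the dichotomy -/
theorem exists_normal_line {G : Type u} [Group G] [Finite G] {s : ℕ} (hs : Squarefree s)
    (hG : Nat.card G = s ^ 2) {U : Fin 3 → Subgroup G} (hU : IsPCP s U) {p : ℕ}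
    [hp : Fact p.Prime] (hps : p ∣ s) {P : Subgroup G} [hPn : P.Normal]
    (hcP : Nat.card P = p ^ 2) (hch : Chain P) :
    ∃ L : Subgroup G, L.Normal ∧ L ≤ P ∧ Nat.card L = p := by
  obtain ⟨u, hu⟩ := hps
  rcases dichotomy hs hG hU (Dvd.intro _ hu.symm) hcP hch with h | ⟨k, hk, -, -⟩
  · refine ⟨U 0 ⊓ P, ⟨fun x hx g => ?_⟩, inf_le_right, hU.card_inf hs hu hG hcP 0⟩
    have h1 : g ∈ powSub P := by rw [h]; trivial
    have h2 : g * x * g⁻¹ ∈ zpowers x := h1 x hx.2
    exact (zpowers_le.2 hx) h2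
  · obtain ⟨i, hi⟩ : ∃ i : Fin 3, i ≠ k := by
      by_cases h : k = 0
      · exact ⟨1, by rw [h]; decide⟩
      · exact ⟨0, fun h' => h h'.symm⟩
    exact ⟨U i ⊓ P, hk i hi, inf_le_right, hU.card_inf hs hu hG hcP i⟩

/-- Structure of a group with such a triple. -/
theorem structure_thm (s : ℕ) : ∀ (G : Type u) [Group G] [Finite G], Squarefree s →
    Nat.card G = s ^ 2 → ∀ U : Fin 3 → Subgroup G, IsPCP s U →
    Chain (⊥ : Subgroup G) ∧ ∀ n : ℕ, ∃ N : Subgroup G, N.Normal ∧ ∃ t u, s = t * u ∧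
      Nat.card N = t ^ 2 ∧ (∀ r, r.Prime → r ∣ t → n < r) ∧ (∀ r, r.Prime → r ∣ u → r ≤ n) := by
  induction s using Nat.strong_induction_on with
  | _ s ih =>
  intro G _ _ hs hG U hU
  by_cases h1 : s = 1
  · subst h1
    have hsub : Subsingleton G := (Nat.card_eq_one_iff_unique.1 (by rw [hG]; norm_num)).1
    refine ⟨⟨0, fun _ => ⊥, rfl, Subsingleton.elim _ _, fun _ => inferInstance, by omega⟩, ?_⟩
    intro n
    refine ⟨⊥, inferInstance, 1, 1, rfl, by simp, ?_, ?_⟩
    · intro r hr hd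
      exact absurd (Nat.dvd_one.1 hd) hr.ne_one
    · intro r hr hd
      exact absurd (Nat.dvd_one.1 hd) hr.ne_one
  obtain ⟨p, hp, hps, hle⟩ := exists_max_prime hs.ne_zero h1
  have : Fact p.Prime := ⟨hp⟩
  obtain ⟨P⟩ : Nonempty (Sylow p G) := inferInstance
  have hPn := sylow_normal_of_pcp hs hG hU hps hle P
  have hcP : Nat.card (P : Subgroup G) = p ^ 2 := card_sylow_sq hs hG hps P
  obtain ⟨u, hu⟩ := hps
  have hu0 : u ≠ 0 := by
    rintro rfl
    exact hs.ne_zero (by rw [hu, mul_zero])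
  have hus : u < s := by
    rw [hu]
    exact lt_mul_of_one_lt_left (Nat.pos_of_ne_zero hu0) hp.one_lt
  have husq : Squarefree u := hs.squarefree_of_dvd (Dvd.intro_left _ hu.symm)
  obtain ⟨hch, hH⟩ := ih u hus (G ⧸ (P : Subgroup G)) husq (card_quot hs hu hG hcP) _
    (hU.quotient hs hu hG hcP)
  have hchP : Chain (P : Subgroup G) := hch.comap
  obtain ⟨L, hLn, hLP, hcL⟩ := exists_normal_line hs hG hU (Dvd.intro _ hu.symm) hcP hchP
  refine ⟨?_, ?_⟩
  · refine Chain.cons inferInstance bot_le ?_ (Chain.cons hLn hLP ?_ hchP)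
    · rw [relIndex_bot_left, hcL]; exact hp
    · have h2 := relIndex_mul_relIndex ⊥ L (P : Subgroup G) bot_le hLP
      rw [relIndex_bot_left, relIndex_bot_left, hcL, hcP, sq] at h2
      rw [Nat.eq_of_mul_eq_mul_left hp.pos h2]; exact hp
  · intro n
    by_cases hn : p ≤ n
    · refine ⟨⊥, inferInstance, 1, s, by simp, by simp, ?_, ?_⟩
      · intro r hr hd
        exact absurd (Nat.dvd_one.1 hd) hr.ne_one
      · intro r hr hd
        exact (hle r hr hd).trans hn
    · obtain ⟨N, hNn, t', u', ht', hcN, h2, h3⟩ := hH n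
      refine ⟨N.comap (QuotientGroup.mk' _), hNn.comap _, p * t', u', ?_, ?_, ?_, h3⟩
      · rw [hu, ht', mul_assoc]
      · rw [card_comap_mk, hcP, hcN, mul_pow]
      · intro r hr hd
        rcases (Nat.Prime.dvd_mul hr).1 hd with h | h
        · have : r = p := (Nat.prime_dvd_prime_iff_eq hr hp).1 h
          omega
        · exact h2 r hr h

end Pool.Agent.Lib_MP_53dcbc_co
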