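import Pool.Agent.Lib_MP_53dcbc_co.Basic

namespace Pool.Agent.Lib_MP_53dcbc_co

open Subgroup
open scoped Pointwise

variable {G : Type*} [Group G]

theorem comm_of_sq {p : ℕ} [Fact p.Prime] {P : Subgroup G} (hP : Nat.card P = p ^ 2) {a b : G}
    (ha : a ∈ P) (hb : b ∈ P) : a * b = b * a := by
  have h := (IsPGroup.isMulCommutative_of_card_eq_prime_sq (G := P) hP).is_comm.comm
    ⟨a, ha⟩ ⟨b, hb⟩
  exact congrArg Subtype.val h

theorem zpowers_inf_eq_bot {p : ℕ} [hp : Fact p.Prime] {a b : G} (_ha : orderOf a = p)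
    (hb : orderOf b = p) (hne : b ∉ zpowers a) : zpowers a ⊓ zpowers b = ⊥ := by
  have h1 : Nat.card (zpowers b) = p := by rw [Nat.card_zpowers, hb]
  rcases (Nat.dvd_prime hp.out).1 (h1 ▸ card_dvd_of_le (inf_le_right (a := zpowers a) (b := zpowers b)))
    with h | h
  · exact (card_eq_one).1 h
  · exfalso
    have h2 : zpowers a ⊓ zpowers b = zpowers b := by
      have : Finite (zpowers b) := Nat.finite_of_card_ne_zero (by rw [h1]; exact hp.out.ne_zero)
      exact eq_of_le_of_card_ge inf_le_right (by rw [h, h1])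
    apply hne
    have h3 : b ∈ zpowers a ⊓ zpowers b := by rw [h2]; exact mem_zpowers b
    exact h3.1

theorem notMem_symm {p : ℕ} [hp : Fact p.Prime] {a b : G} (ha : orderOf a = p)
    (hb : orderOf b = p) (hne : b ∉ zpowers a) : a ∉ zpowers b := by
  intro h
  have h1 := zpowers_inf_eq_bot ha hb hne
  have h2 : a ∈ zpowers a ⊓ zpowers b := ⟨mem_zpowers a, h⟩
  rw [h1, mem_bot] at h2
  rw [h2, orderOf_one] at ha
  exact hp.out.one_lt.ne ha

theorem span_of_ne {p : ℕ} [hp : Fact p.Prime] [Finite G] {P : Subgroup G} (hP : Nat.card P = p ^ 2)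
    {a b : G} (ha : a ∈ P) (hb : b ∈ P) (hoa : orderOf a = p) (hob : orderOf b = p)
    (hne : b ∉ zpowers a) {y : G} (hy : y ∈ P) : ∃ i j : ℤ, y = a ^ i * b ^ j := by
  have h : IsComplement' (zpowers (⟨a, ha⟩ : P)) (zpowers (⟨b, hb⟩ : P)) := by
    apply isComplement'_of_card_mul_and_disjoint
    · rw [Nat.card_zpowers, Nat.card_zpowers, hP, ← Subgroup.orderOf_coe, ← Subgroup.orderOf_coe]
      change orderOf a * orderOf b = _
      rw [hoa, hob, sq]
    · rw [disjoint_iff, eq_bot_iff]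
      rintro ⟨x, hx⟩ ⟨⟨i, h1⟩, ⟨j, h2⟩⟩
      have h1' : a ^ i = x := congrArg Subtype.val h1
      have h2' : b ^ j = x := congrArg Subtype.val h2
      have h3 : x ∈ zpowers a ⊓ zpowers b :=
        ⟨h1' ▸ zpow_mem (mem_zpowers a) i, h2' ▸ zpow_mem (mem_zpowers b) j⟩
      rw [zpowers_inf_eq_bot hoa hob hne, mem_bot] at h3
      rw [mem_bot]
      exact Subtype.ext h3
  obtain ⟨⟨⟨_, i, rfl⟩, ⟨_, j, rfl⟩⟩, hab⟩ := h.2 ⟨y, hy⟩
  refine ⟨i, j, ?_⟩
  have := congrArg Subtype.val hab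
  simpa using this.symm

theorem scalar_of_two {p : ℕ} [hp : Fact p.Prime] [Finite G] {P : Subgroup G}
    (hP : Nat.card P = p ^ 2) {a b : G} (ha : a ∈ P) (hb : b ∈ P) (hoa : orderOf a = p)
    (hob : orderOf b = p) (hne : b ∉ zpowers a) {x : G} {k : ℤ} (h1 : x * a * x⁻¹ = a ^ k)
    (h2 : x * b * x⁻¹ = b ^ k) {y : G} (hy : y ∈ P) : x * y * x⁻¹ = y ^ k := by
  obtain ⟨i, j, rfl⟩ := span_of_ne hP ha hb hoa hob hne hy
  have hc : Commute (a ^ i) (b ^ j) := (show Commute a b from comm_of_sq hP ha hb).zpow_zpow i j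
  rw [hc.mul_zpow, ← zpow_mul, ← zpow_mul, mul_comm i k, mul_comm j k, zpow_mul, zpow_mul,
    ← h1, ← h2, conj_zpow, conj_zpow]
  group

theorem scalar_of_three {p : ℕ} [hp : Fact p.Prime] [Finite G] {P : Subgroup G}
    (hP : Nat.card P = p ^ 2) {a b c : G} (ha : a ∈ P) (hb : b ∈ P) (hc : c ∈ P)
    (hoa : orderOf a = p) (hob : orderOf b = p)
    (hab : b ∉ zpowers a) (hac : c ∉ zpowers a) (hbc : c ∉ zpowers b) {x : G}
    (h1 : x * a * x⁻¹ ∈ zpowers a) (h2 : x * b * x⁻¹ ∈ zpowers b)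
    (h3 : x * c * x⁻¹ ∈ zpowers c) : ∃ k : ℤ, ∀ y ∈ P, x * y * x⁻¹ = y ^ k := by
  obtain ⟨i, j, hij⟩ := span_of_ne hP ha hb hoa hob hab hc
  obtain ⟨k1, hk1⟩ := h1
  obtain ⟨k2, hk2⟩ := h2
  obtain ⟨k3, hk3⟩ := h3
  simp only at hk1 hk2 hk3
  have hi : a ^ i ≠ 1 := by
    intro h
    apply hbc
    rw [hij, h, one_mul]
    exact zpow_mem (mem_zpowers b) j
  have hj : b ^ j ≠ 1 := by
    intro h
    apply hac
    rw [hij, h, mul_one]
    exact zpow_mem (mem_zpowers a) i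
  have hinf := zpowers_inf_eq_bot hoa hob hab
  have hoi : orderOf (a ^ i) = p := by
    have h0 : orderOf (a ^ i) ∣ p := by
      rw [← hoa]; exact orderOf_dvd_of_mem_zpowers (zpow_mem (mem_zpowers a) i)
    rcases (Nat.dvd_prime hp.out).1 h0 with h | h
    · exact absurd (orderOf_eq_one_iff.1 h) hi
    · exact h
  have hoj : orderOf (b ^ j) = p := by
    have h0 : orderOf (b ^ j) ∣ p := by
      rw [← hob]; exact orderOf_dvd_of_mem_zpowers (zpow_mem (mem_zpowers b) j)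
    rcases (Nat.dvd_prime hp.out).1 h0 with h | h
    · exact absurd (orderOf_eq_one_iff.1 h) hj
    · exact h
  have hne : b ^ j ∉ zpowers (a ^ i) := by
    intro h
    have h4 : b ^ j ∈ zpowers a ⊓ zpowers b := by
      refine ⟨?_, zpow_mem (mem_zpowers b) j⟩
      obtain ⟨m, hm⟩ := h
      simp only at hm
      rw [← hm]
      exact zpow_mem (zpow_mem (mem_zpowers a) i) m
    rw [hinf, mem_bot] at h4
    exact hj h4
  have hcomm : Commute (a ^ i) (b ^ j) :=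
    (show Commute a b from comm_of_sq hP ha hb).zpow_zpow i j
  have e1 : x * a ^ i * x⁻¹ = (a ^ i) ^ k1 := by
    rw [← conj_zpow, ← hk1, ← zpow_mul, ← zpow_mul, mul_comm]
  have e2 : x * b ^ j * x⁻¹ = (b ^ j) ^ k2 := by
    rw [← conj_zpow, ← hk2, ← zpow_mul, ← zpow_mul, mul_comm]
  have e3 : (a ^ i) ^ k1 * (b ^ j) ^ k2 = (a ^ i) ^ k3 * (b ^ j) ^ k3 := by
    rw [← hcomm.mul_zpow, ← hij, hk3, ← e1, ← e2, hij]
    group
  have e4 : ((a ^ i) ^ k3)⁻¹ * (a ^ i) ^ k1 = (b ^ j) ^ k3 * ((b ^ j) ^ k2)⁻¹ := by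
    rw [inv_mul_eq_iff_eq_mul, ← mul_assoc, eq_mul_inv_iff_mul_eq]
    exact e3
  have e5 : ((a ^ i) ^ k3)⁻¹ * (a ^ i) ^ k1 ∈ zpowers a ⊓ zpowers b := by
    refine ⟨?_, ?_⟩
    · exact (zpowers a).mul_mem ((zpowers a).inv_mem (zpow_mem (zpow_mem (mem_zpowers a) i) k3))
        (zpow_mem (zpow_mem (mem_zpowers a) i) k1)
    · rw [e4]
      exact (zpowers b).mul_mem (zpow_mem (zpow_mem (mem_zpowers b) j) k3)
        ((zpowers b).inv_mem (zpow_mem (zpow_mem (mem_zpowers b) j) k2))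
  have e6 := e5
  rw [e4] at e6
  rw [hinf, mem_bot] at e5 e6
  have e7 : (a ^ i) ^ k1 = (a ^ i) ^ k3 := (inv_mul_eq_one.1 e5).symm
  have e8 : (b ^ j) ^ k2 = (b ^ j) ^ k3 := (mul_inv_eq_one.1 e6).symm
  refine ⟨k3, fun y hy => ?_⟩
  exact scalar_of_two hP (zpow_mem ha i) (zpow_mem hb j) hoi hoj hne (by rw [e1, e7])
    (by rw [e2, e8]) hy

/-- the elements acting on `P` by power maps -/
def powSub [Finite G] (P : Subgroup G) : Subgroup G where
  carrier := {x | ∀ y ∈ P, x * y * x⁻¹ ∈ zpowers y}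
  mul_mem' := by
    intro x x' hx hx' y hy
    have h1 : x' * y * x'⁻¹ ∈ zpowers y := hx' y hy
    have h2 : x' * y * x'⁻¹ ∈ P := (zpowers_le.2 hy) h1
    have h3 := hx _ h2
    have h4 : zpowers (x' * y * x'⁻¹) ≤ zpowers y := zpowers_le.2 h1
    have e : x * x' * y * (x * x')⁻¹ = x * (x' * y * x'⁻¹) * x⁻¹ := by group
    rw [e]
    exact h4 h3
  one_mem' := by
    intro y hy
    simp
  inv_mem' := by
    intro x hx y hy
    have hf : ∀ z : zpowers y, x * (z : G) * x⁻¹ ∈ zpowers y := by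
      intro z
      have h1 : (z : G) ∈ P := (zpowers_le.2 hy) z.2
      exact (zpowers_le.2 z.2) (hx _ h1)
    let f : zpowers y → zpowers y := fun z => ⟨x * z * x⁻¹, hf z⟩
    have hinj : Function.Injective f := by
      intro z z' h
      have := congrArg Subtype.val h
      simp only [f] at this
      exact Subtype.ext (by simpa using this)
    obtain ⟨z, hz⟩ := (Finite.injective_iff_surjective.1 hinj) ⟨y, mem_zpowers y⟩
    have h2 : x * z * x⁻¹ = y := congrArg Subtype.val hz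
    have h3 : x⁻¹ * y * x⁻¹⁻¹ = z := by
      have h5 : (z : G) = x⁻¹ * (x * z * x⁻¹) * x⁻¹⁻¹ := by group
      rw [h2] at h5
      exact h5.symm
    rw [h3]
    exact z.2

theorem mem_powSub [Finite G] {P : Subgroup G} {x : G} :
    x ∈ powSub P ↔ ∀ y ∈ P, x * y * x⁻¹ ∈ zpowers y := Iff.rfl

theorem powSub_normal [Finite G] (P : Subgroup G) [hP : P.Normal] : (powSub P).Normal := by
  refine ⟨fun x hx g => ?_⟩
  intro y hy
  have h1 : g⁻¹ * y * g ∈ P := by
    have := hP.conj_mem y hy g⁻¹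
    simpa using this
  obtain ⟨k, hk⟩ := hx _ h1
  simp only at hk
  refine ⟨k, ?_⟩
  simp only
  have h2 : (g⁻¹ * y * g) ^ k = g⁻¹ * y ^ k * g := by
    have := conj_zpow (i := k) (a := g⁻¹) (b := y)
    simpa using this
  rw [h2] at hk
  have h3 : y ^ k = g * (g⁻¹ * y ^ k * g) * g⁻¹ := by group
  rw [h3, hk]
  group

end Pool.Agent.Lib_MP_53dcbc_co
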