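import Pool.Agent.Lib_MP_53dcbc_co.Induct

namespace Pool.Agent.Lib_MP_53dcbc_co

open Subgroup
open scoped Pointwise commutatorElement

universe u

theorem commutator_fixes {G : Type u} [Group G] {a : G}
    (h : ∀ x : G, x * a * x⁻¹ ∈ zpowers a) (g k : G) : ⁅g, k⁆ * a * ⁅g, k⁆⁻¹ = a := by
  have key : ∀ w ∈ zpowers a, (g * k) * w * (g * k)⁻¹ = (k * g) * w * (k * g)⁻¹ := by
    rintro w ⟨n, rfl⟩
    simp only
    rw [← conj_zpow, ← conj_zpow]
    congr 1
    obtain ⟨m, hm⟩ := h g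
    obtain ⟨l, hl⟩ := h k
    simp only at hm hl
    have e1 : g * k * a * (g * k)⁻¹ = (g * a * g⁻¹) ^ l := by
      rw [conj_zpow, hl]; group
    have e2 : k * g * a * (k * g)⁻¹ = (k * a * k⁻¹) ^ m := by
      rw [conj_zpow, hm]; group
    rw [e1, e2, ← hm, ← hl, ← zpow_mul, ← zpow_mul, mul_comm]
  have h1 : (k * g)⁻¹ * a * (k * g)⁻¹⁻¹ ∈ zpowers a := h _
  have h2 := key _ h1
  have e3 : ⁅g, k⁆ * a * ⁅g, k⁆⁻¹ = (g * k) * ((k * g)⁻¹ * a * (k * g)⁻¹⁻¹) * (g * k)⁻¹ := by
    rw [commutatorElement_def]; group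
  rw [e3, h2]; group

theorem le_of_card_dvd {G : Type u} [Group G] [Finite G] {s : ℕ} (hs : Squarefree s)
    (hG : Nat.card G = s ^ 2) {q : ℕ} [hq : Fact q.Prime] (hqs : q ∣ s) {L : Subgroup G}
    [L.Normal] (hL : q ^ 2 ∣ Nat.card L) (Q : Sylow q G) : (Q : Subgroup G) ≤ L := by
  have hcQ : Nat.card (Q : Subgroup G) = q ^ 2 := card_sylow_sq hs hG hqs Q
  have h1 : ¬ q ∣ L.index := by
    intro h
    have h2 : q ^ 2 * q ∣ s ^ 2 := by
      rw [← hG, ← card_mul_index L]
      exact mul_dvd_mul hL h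
    obtain ⟨w, rfl⟩ := hqs
    rw [mul_pow] at h2
    have h3 : q ∣ w ^ 2 := Nat.dvd_of_mul_dvd_mul_left (pow_pos hq.out.pos 2) h2
    have h4 : q ∣ w := hq.out.dvd_of_dvd_pow h3
    have h5 : q * q ∣ q * w := Nat.mul_dvd_mul_left q h4
    exact hq.out.not_isUnit (hs q h5)
  have h2 : Nat.Coprime (Nat.card (Q : Subgroup G)) L.index := by
    rw [hcQ]
    exact Nat.Coprime.pow_left 2 ((Nat.Prime.coprime_iff_not_dvd hq.out).2 h1)
  have h3 : L.relIndex (Q : Subgroup G) ∣ L.index := relIndex_dvd_index_of_normal L Q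
  have h4 : L.relIndex (Q : Subgroup G) ∣ Nat.card (Q : Subgroup G) := relIndex_dvd_card _ _
  exact relIndex_eq_one.1 (Nat.eq_one_of_dvd_coprimes h2 h4 h3)

theorem le_of_normal_sylow {G : Type u} [Group G] [Finite G] {q : ℕ} [hq : Fact q.Prime]
    (P : Sylow q G) (hP : (P : Subgroup G).Normal) {H : Subgroup G} (hH : IsPGroup q H) :
    H ≤ P := by
  obtain ⟨Q, hQ⟩ := hH.exists_le_sylow
  have := Sylow.unique_of_normal P hP
  have h : Q = P := Subsingleton.elim _ _
  rw [← h]; exact hQ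

theorem fin3_two : ∀ k : Fin 3, ∃ i j : Fin 3, i ≠ j ∧ i ≠ k ∧ j ≠ k := by
  decide

/-- Local data at the prime `q`. -/
theorem local_data {G : Type u} [Group G] [Finite G] {s : ℕ} (hs : Squarefree s)
    (hG : Nat.card G = s ^ 2) {U : Fin 3 → Subgroup G} (hU : IsPCP s U) {q : ℕ}
    (hq : q.Prime) (hqs : q ∣ s) :
    ∃ (K : Subgroup G) (c : Fin 3), K.Normal ∧ commutator G ≤ K ∧
      (∀ (Q : Sylow q G), ∀ x ∈ K, x ∈ normalizer (Q : Set G) → ∀ y ∈ Q, x * y * x⁻¹ ∈ zpowers y) ∧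
      (K = ⊤ ∨ (U c ≤ K ∧ ∀ L : Subgroup G, L.Normal → U c ≤ L → ∀ Q : Sylow q G,
        (Q : Subgroup G) ≤ L)) := by
  have : Fact q.Prime := ⟨hq⟩
  obtain ⟨N, hNn, t, u, htu, hcN, hNt, hNu⟩ := (structure_thm s G hs hG U hU).2 q
  have husq : Squarefree u := hs.squarefree_of_dvd (Dvd.intro_left _ htu.symm)
  have hcG' : Nat.card (G ⧸ N) = u ^ 2 := card_quot hs htu hG hcN
  have hU' := hU.quotient hs htu hG hcN
  have hqt : ¬ q ∣ t := fun h => lt_irrefl _ (hNt q hq h)
  have hqu : q ∣ u := by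
    rw [htu] at hqs
    exact ((Nat.Prime.dvd_mul hq).1 hqs).resolve_left hqt
  obtain ⟨P⟩ : Nonempty (Sylow q (G ⧸ N)) := inferInstance
  have hPn := sylow_normal_of_pcp husq hcG' hU' hqu hNu P
  have hcP : Nat.card (P : Subgroup (G ⧸ N)) = q ^ 2 := card_sylow_sq husq hcG' hqu P
  obtain ⟨w, hw⟩ := hqu
  have hwsq : Squarefree w := husq.squarefree_of_dvd (Dvd.intro_left _ hw.symm)
  have hchP : Chain (P : Subgroup (G ⧸ N)) :=
    (structure_thm w ((G ⧸ N) ⧸ (P : Subgroup (G ⧸ N))) hwsq (card_quot husq hw hcG' hcP) _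
      (hU'.quotient husq hw hcG' hcP)).1.comap
  have hdich := dichotomy husq hcG' hU' (Dvd.intro _ hw.symm) hcP hchP
  have hKn : (powSub (P : Subgroup (G ⧸ N))).Normal := powSub_normal _
  have hF4 : ∀ (Q : Sylow q G), ∀ x ∈ (powSub (P : Subgroup (G ⧸ N))).comap (QuotientGroup.mk' N),
      x ∈ normalizer (Q : Set G) → ∀ y ∈ Q, x * y * x⁻¹ ∈ zpowers y := by
    intro Q x hx hxQ y hy
    have h1 : (QuotientGroup.mk' N) y ∈ (P : Subgroup (G ⧸ N)) := by
      have h2 : IsPGroup q ((Q : Subgroup G).map (QuotientGroup.mk' N)) := Q.isPGroup'.map _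
      exact le_of_normal_sylow P hPn h2 (mem_map_of_mem _ hy)
    obtain ⟨k, hk⟩ := hx _ h1
    simp only at hk
    have h3 : x * y * x⁻¹ * (y ^ k)⁻¹ ∈ N := by
      rw [← QuotientGroup.ker_mk' N, MonoidHom.mem_ker]
      simp only [map_mul, map_inv, map_zpow]
      rw [hk]; group
    have h4 : x * y * x⁻¹ ∈ Q := by
      have := (mem_normalizer_iff (H := (Q : Subgroup G))).1 hxQ y
      exact this.1 hy
    have h5 : x * y * x⁻¹ * (y ^ k)⁻¹ ∈ (Q : Subgroup G) :=
      (Q : Subgroup G).mul_mem h4 ((Q : Subgroup G).inv_mem ((Q : Subgroup G).zpow_mem hy k))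
    have h6 : Disjoint N (Q : Subgroup G) := by
      apply disjoint_of_coprime_natCard
      rw [hcN]
      obtain ⟨e, he⟩ := Q.isPGroup'.exists_card_eq
      have : Nat.card (Q : Subgroup G) = q ^ e := he
      rw [this]
      exact Nat.Coprime.pow 2 e ((Nat.Prime.coprime_iff_not_dvd hq).2 hqt).symm
    have h7 : x * y * x⁻¹ * (y ^ k)⁻¹ ∈ N ⊓ (Q : Subgroup G) := Subgroup.mem_inf.2 ⟨h3, h5⟩
    rw [disjoint_iff.1 h6, mem_bot, mul_inv_eq_one] at h7
    rw [h7]
    exact zpow_mem (mem_zpowers y) k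
  rcases hdich with h | ⟨k, hk1, hk2, hk3⟩
  · refine ⟨(powSub (P : Subgroup (G ⧸ N))).comap (QuotientGroup.mk' N), 0, hKn.comap _, ?_, hF4,
      Or.inl ?_⟩
    · rw [h, comap_top]; exact le_top
    · rw [h, comap_top]
  · refine ⟨(powSub (P : Subgroup (G ⧸ N))).comap (QuotientGroup.mk' N), k, hKn.comap _, ?_, hF4,
      Or.inr ⟨?_, ?_⟩⟩
    · rw [commutator_def, commutator_le]
      intro g _ h _
      rw [mem_comap, map_commutatorElement]
      obtain ⟨y, hy⟩ := hU'.exists_gen husq hcG' (Dvd.intro _ hw.symm) hcP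
      have hyU : ∀ i, y i ∈ (U i).map (QuotientGroup.mk' N) := fun i => by
        have : y i ∈ (U i).map (QuotientGroup.mk' N) ⊓ (P : Subgroup (G ⧸ N)) := by
          rw [(hy i).1]; exact mem_zpowers _
        exact this.1
      have hyP : ∀ i, y i ∈ (P : Subgroup (G ⧸ N)) := fun i => by
        have : y i ∈ (U i).map (QuotientGroup.mk' N) ⊓ (P : Subgroup (G ⧸ N)) := by
          rw [(hy i).1]; exact mem_zpowers _
        exact this.2
      have hyo : ∀ i, orderOf (y i) = q := fun i => (hy i).2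
      have hyne : ∀ i j, i ≠ j → y j ∉ zpowers (y i) :=
        fun i j hij => hU'.notMem_zpowers hyU hyo hij
      have hline : ∀ i, i ≠ k → ∀ x, x * y i * x⁻¹ ∈ zpowers (y i) := by
        intro i hi x
        rw [← (hy i).1]
        apply (hk1 i hi).conj_mem
        rw [(hy i).1]; exact mem_zpowers _
      obtain ⟨i, j, hij, hik, hjk⟩ := fin3_two k
      intro z hz
      have h1 := scalar_of_two hcP (hyP i) (hyP j) (hyo i) (hyo j) (hyne i j hij) (k := 1)
        (x := ⁅(QuotientGroup.mk' N) g, (QuotientGroup.mk' N) h⁆)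
        (by rw [commutator_fixes (hline i hik), zpow_one])
        (by rw [commutator_fixes (hline j hjk), zpow_one]) hz
      rw [h1, zpow_one]
      exact mem_zpowers z
    · rw [← map_le_iff_le_comap]
      exact hk2
    · intro L hLn hL Q
      apply le_of_card_dvd hs hG hqs
      have hLn' : (L.map (QuotientGroup.mk' N)).Normal :=
        hLn.map _ (QuotientGroup.mk'_surjective N)
      have h1 : (U k).map (QuotientGroup.mk' N) ≤ L.map (QuotientGroup.mk' N) := map_mono hL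
      have h2 : Nat.card ((U k).map (QuotientGroup.mk' N) ⊓ (P : Subgroup (G ⧸ N)) :
          Subgroup (G ⧸ N)) = q := hU'.card_inf husq hw hcG' hcP k
      have h3 : (U k).map (QuotientGroup.mk' N) ⊓ (P : Subgroup (G ⧸ N)) ≤
          L.map (QuotientGroup.mk' N) ⊓ (P : Subgroup (G ⧸ N)) := inf_le_inf_right _ h1
      have h4 : Nat.card (L.map (QuotientGroup.mk' N) ⊓ (P : Subgroup (G ⧸ N)) :
          Subgroup (G ⧸ N)) ∣ q ^ 2 := by
        rw [← hcP]; exact card_dvd_of_le inf_le_right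
      obtain ⟨e, he, hce⟩ := (Nat.dvd_prime_pow hq).1 h4
      have h5 : q ∣ q ^ e := by
        rw [← hce]
        have := card_dvd_of_le h3
        rw [h2] at this
        exact this
      have he2 : e = 2 := by
        by_contra hne
        have h6 : e ≠ 0 := by
          rintro rfl
          rw [pow_zero] at h5
          exact hq.one_lt.ne' (Nat.dvd_one.1 h5)
        have h7 : e = 1 := by omega
        rw [h7, pow_one] at hce
        have h8 : (U k).map (QuotientGroup.mk' N) ⊓ (P : Subgroup (G ⧸ N)) =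
          L.map (QuotientGroup.mk' N) ⊓ (P : Subgroup (G ⧸ N)) :=
          eq_of_le_of_card_ge h3 (by rw [hce, h2])
        apply hk3
        rw [h8]
        infer_instance
      have h9 : q ^ 2 ∣ Nat.card (L.map (QuotientGroup.mk' N)) := by
        rw [← he2, ← hce]; exact card_dvd_of_le inf_le_left
      exact h9.trans (card_map_dvd _ _)

end Pool.Agent.Lib_MP_53dcbc_co
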