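import Pool.Agent.Lib_MP_53dcbc_co.Quot

namespace Pool.Agent.Lib_MP_53dcbc_co

open Subgroup
open scoped Pointwise

universe u

/-- a chain of normal subgroups from `A` to `G` with prime indices -/
def Chain {G : Type u} [Group G] (A : Subgroup G) : Prop :=
  ∃ (n : ℕ) (N : ℕ → Subgroup G), N 0 = A ∧ N n = ⊤ ∧ (∀ i, (N i).Normal) ∧
    ∀ i < n, N i ≤ N (i + 1) ∧ ((N i).relIndex (N (i + 1))).Prime

theorem orderOf_conj' {G : Type u} [Group G] (g x : G) : orderOf (g * x * g⁻¹) = orderOf x := by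
  have h1 : orderOf (MulAut.conj g x) = orderOf x :=
    orderOf_injective (MulAut.conj g).toMonoidHom (MulAut.conj g).injective x
  rwa [MulAut.conj_apply] at h1

theorem IsPCP.card_inf {G : Type u} [Group G] [Finite G] {s t u : ℕ} (hs : Squarefree s)
    (hst : s = t * u) (hG : Nat.card G = s ^ 2) {U : Fin 3 → Subgroup G} (hU : IsPCP s U)
    {N : Subgroup G} [N.Normal] (hN : Nat.card N = t ^ 2) (i : Fin 3) :
    Nat.card (U i ⊓ N : Subgroup G) = t := by
  have h0 := (hU.quotient hs hst hG hN).1 i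
  simp only at h0
  have h1 : u = N.relIndex (U i) := by
    rw [← h0, ← relIndex_ker, QuotientGroup.ker_mk']
  have h2 : u * Nat.card (N ⊓ U i : Subgroup G) = s := by
    rw [h1, ← hU.1 i, ← relIndex_bot_left (N ⊓ U i), ← inf_relIndex_right N (U i)]
    rw [mul_comm, relIndex_mul_relIndex _ _ _ bot_le inf_le_right, relIndex_bot_left]
  have hu : 0 < u := Nat.pos_of_ne_zero (by
    rintro rfl
    rw [mul_zero] at hst
    exact hs.ne_zero hst)
  rw [inf_comm]
  apply Nat.eq_of_mul_eq_mul_left hu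
  rw [h2, hst, mul_comm]

theorem IsPCP.exists_gen {G : Type u} [Group G] [Finite G] {s : ℕ} (hs : Squarefree s)
    (hG : Nat.card G = s ^ 2) {U : Fin 3 → Subgroup G} (hU : IsPCP s U) {p : ℕ}
    [hp : Fact p.Prime] (hps : p ∣ s) {P : Subgroup G} [P.Normal] (hcP : Nat.card P = p ^ 2) :
    ∃ y : Fin 3 → G, ∀ i, U i ⊓ P = zpowers (y i) ∧ orderOf (y i) = p := by
  obtain ⟨u, hu⟩ := hps
  have h : ∀ i, ∃ y : G, U i ⊓ P = zpowers y ∧ orderOf y = p := by
    intro i
    have h1 := hU.card_inf hs hu hG hcP i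
    have h2 : IsCyclic (U i ⊓ P : Subgroup G) := isCyclic_of_prime_card h1
    obtain ⟨y, hy⟩ := (Subgroup.isCyclic_iff_exists_zpowers_eq_top (U i ⊓ P)).1 h2
    exact ⟨y, hy.symm, by rw [← Nat.card_zpowers, hy, h1]⟩
  choose y hy using h
  exact ⟨y, hy⟩

theorem commute_line {G : Type u} [Group G] [Finite G] {p : ℕ} [hp : Fact p.Prime]
    {P : Subgroup G} [hPn : P.Normal] (hcP : Nat.card P = p ^ 2) {a x z : G} (ha : a ∈ P)
    (hoa : orderOf a = p) (hx : x * a * x⁻¹ ∈ zpowers a) (hxK : x ∉ powSub P)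
    (hxz : Commute x z) : z * a * z⁻¹ ∈ zpowers a := by
  by_contra hc
  obtain ⟨k, hk⟩ := hx
  simp only at hk
  have h1 : x * (z * a * z⁻¹) * x⁻¹ = (z * a * z⁻¹) ^ k := by
    rw [conj_zpow, hk]
    have e1 : x * (z * a * z⁻¹) * x⁻¹ = (x * z) * a * (x * z)⁻¹ := by group
    have e2 : z * (x * a * x⁻¹) * z⁻¹ = (z * x) * a * (z * x)⁻¹ := by group
    rw [e1, e2, hxz.eq]
  apply hxK
  intro y hy
  have h2 := scalar_of_two hcP ha (hPn.conj_mem a ha z) hoa (by rw [orderOf_conj']; exact hoa)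
    hc hk.symm h1 hy
  rw [h2]
  exact zpow_mem (mem_zpowers y) k

theorem mem_powSub_of_lines {G : Type u} [Group G] [Finite G] {p : ℕ} [hp : Fact p.Prime]
    {P : Subgroup G} (hcP : Nat.card P = p ^ 2) {a b c : G} (ha : a ∈ P) (hb : b ∈ P)
    (hc : c ∈ P) (hoa : orderOf a = p) (hob : orderOf b = p)
    (hab : b ∉ zpowers a) (hac : c ∉ zpowers a) (hbc : c ∉ zpowers b) {x : G}
    (h1 : x * a * x⁻¹ ∈ zpowers a) (h2 : x * b * x⁻¹ ∈ zpowers b)
    (h3 : x * c * x⁻¹ ∈ zpowers c) : x ∈ powSub P := by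
  obtain ⟨k, hk⟩ := scalar_of_three hcP ha hb hc hoa hob hab hac hbc h1 h2 h3
  intro y hy
  rw [hk y hy]
  exact zpow_mem (mem_zpowers y) k

/-- an element of prime power order outside `K` -/
theorem exists_r_element {G : Type u} [Group G] [Finite G] {M' M K : Subgroup G} [M'.Normal]
    (hle : M' ≤ M) {r : ℕ} [hr : Fact r.Prime] (hrel : M'.relIndex M = r) (h1 : M' ≤ K)
    (h2 : ¬ M ≤ K) : ∃ x ∈ M, x ∉ K ∧ (∃ e : ℕ, orderOf x = r ^ e) ∧ M ≤ M' ⊔ zpowers x := by
  obtain ⟨m, hmM, hmK⟩ := SetLike.not_le_iff_exists.1 h2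
  have hinf : M ⊓ K = M' := by
    have h3 : M' ≤ M ⊓ K := le_inf hle h1
    have h4 := relIndex_mul_relIndex M' (M ⊓ K) M h3 inf_le_left
    have h5 : (M ⊓ K).relIndex M ≠ 1 := by
      intro h
      rw [relIndex_eq_one] at h
      exact h2 (h.trans inf_le_right)
    have h6 : M'.relIndex (M ⊓ K) = 1 := by
      rw [hrel] at h4
      rcases (Nat.dvd_prime hr.out).1 (Dvd.intro_left _ h4) with h | h
      · exact absurd h h5
      · rw [h] at h4
        exact Nat.eq_of_mul_eq_mul_right hr.out.pos (by rw [h4, one_mul])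
    exact le_antisymm (relIndex_eq_one.1 h6) h3
  have hmr : m ^ r ∈ M' := by
    have h3 := Subgroup.pow_index_mem (M'.subgroupOf M) ⟨m, hmM⟩
    rw [← relIndex, hrel] at h3
    exact h3
  obtain ⟨e, b, hb, heb⟩ := Nat.exists_eq_pow_mul_and_not_dvd (orderOf_pos m).ne' r hr.out.ne_one
  have hx0 : m ^ b ∉ M' := by
    intro h
    apply hmK
    apply h1
    have hcop : Nat.Coprime r b := (Nat.Prime.coprime_iff_not_dvd hr.out).2 hb
    have hg := Nat.gcd_eq_gcd_ab r b
    rw [hcop.gcd_eq_one] at hg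
    have e1 : m = (m ^ r) ^ (r.gcdA b) * (m ^ b) ^ (r.gcdB b) := by
      rw [← zpow_natCast, ← zpow_natCast, ← zpow_mul, ← zpow_mul, ← zpow_add]
      have : (r : ℤ) * r.gcdA b + b * r.gcdB b = 1 := by
        rw [← hg]; simp
      rw [this, zpow_one]
    rw [e1]
    exact mul_mem (zpow_mem hmr _) (zpow_mem h _)
  have hx1 : m ^ b ∈ M := pow_mem hmM b
  have hx2 : m ^ b ∉ K := by
    intro h
    apply hx0
    rw [← hinf]
    exact ⟨hx1, h⟩
  refine ⟨m ^ b, hx1, hx2, ⟨e, ?_⟩, ?_⟩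
  · rw [orderOf_pow_of_dvd]
    · rw [heb]
      rw [Nat.mul_div_cancel]
      apply Nat.pos_of_ne_zero
      rintro rfl
      simp at hb
    · rintro rfl
      simp at hb
    · rw [heb]; exact Dvd.intro_left _ rfl
  · have h3 : M' ≤ M' ⊔ zpowers (m ^ b) := le_sup_left
    have h4 : M' ⊔ zpowers (m ^ b) ≤ M := sup_le hle (zpowers_le.2 hx1)
    have h5 := relIndex_mul_relIndex M' _ M h3 h4
    rw [hrel] at h5
    rcases (Nat.dvd_prime hr.out).1 (Dvd.intro _ h5) with h | h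
    · exfalso
      rw [relIndex_eq_one] at h
      exact hx0 (h ((le_sup_right : zpowers (m ^ b) ≤ _) (mem_zpowers _)))
    · rw [h] at h5
      have h6 : (M' ⊔ zpowers (m ^ b)).relIndex M = 1 :=
        Nat.eq_of_mul_eq_mul_left hr.out.pos (by rw [h5, mul_one])
      exact relIndex_eq_one.1 h6

theorem line_of_mul {G : Type u} [Group G] {a x z : G} (hx : x * a * x⁻¹ ∈ zpowers a)
    (hz : z * a * z⁻¹ ∈ zpowers a) : (x * z) * a * (x * z)⁻¹ ∈ zpowers a := by
  obtain ⟨k, hk⟩ := hz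
  simp only at hk
  have e : (x * z) * a * (x * z)⁻¹ = (x * a * x⁻¹) ^ k := by
    rw [conj_zpow, hk]; group
  rw [e]
  exact zpow_mem hx k

/-- the stabiliser of the line generated by `a` -/
def lineStab {G : Type u} [Group G] [Finite G] (a : G) : Subgroup G := powSub (zpowers a)

theorem mem_lineStab {G : Type u} [Group G] [Finite G] {a x : G} :
    x ∈ lineStab a ↔ x * a * x⁻¹ ∈ zpowers a := by
  constructor
  · intro h
    exact h a (mem_zpowers a)
  · rintro ⟨k, hk⟩ y ⟨m, rfl⟩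
    simp only at hk ⊢
    refine ⟨k, ?_⟩
    simp only
    rw [← conj_zpow, ← hk, ← zpow_mul, ← zpow_mul, mul_comm]

theorem fin3_cases : ∀ i k₁ k l : Fin 3, i ≠ k₁ → i ≠ k → k₁ ≠ k → l ≠ k → l = i ∨ l = k₁ := by
  decide

/-- The key dichotomy. -/
theorem dichotomy {G : Type u} [Group G] [Finite G] {s : ℕ} (hs : Squarefree s)
    (hG : Nat.card G = s ^ 2) {U : Fin 3 → Subgroup G} (hU : IsPCP s U) {p : ℕ}
    [hp : Fact p.Prime] (hps : p ∣ s) {P : Subgroup G} [hPn : P.Normal]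
    (hcP : Nat.card P = p ^ 2) (hch : Chain P) :
    powSub P = ⊤ ∨ ∃ k, (∀ i, i ≠ k → (U i ⊓ P).Normal) ∧ U k ≤ powSub P ∧
      ¬ (U k ⊓ P).Normal := by
  by_cases hK : powSub P = ⊤
  · exact Or.inl hK
  right
  have hKn : (powSub P).Normal := powSub_normal P
  have hPK : P ≤ powSub P := by
    intro x hx y hy
    have : x * y * x⁻¹ = y := by rw [comm_of_sq hcP hx hy]; group
    rw [this]; exact mem_zpowers y
  obtain ⟨n, N, hN0, hNn, hNnor, hNstep⟩ := hch
  classical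
  have hex : ∃ i, ¬ N i ≤ powSub P := ⟨n, by rw [hNn, top_le_iff]; exact hK⟩
  obtain ⟨j, hj1, hj2, hjn⟩ : ∃ j, N j ≤ powSub P ∧ ¬ N (j + 1) ≤ powSub P ∧ j < n := by
    have h1 := Nat.find_spec hex
    have h2 : Nat.find hex ≠ 0 := by
      intro h
      rw [h, hN0] at h1
      exact h1 hPK
    obtain ⟨j, hj⟩ := Nat.exists_eq_succ_of_ne_zero h2
    have h3 : ¬ ¬ N j ≤ powSub P := Nat.find_min hex (by omega)
    have h4 : Nat.find hex ≤ n := Nat.find_min' hex (by rw [hNn, top_le_iff]; exact hK)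
    refine ⟨j, not_not.1 h3, ?_, by omega⟩
    rw [hj] at h1; exact h1
  obtain ⟨hle, hprime⟩ := hNstep j hjn
  set r := (N j).relIndex (N (j + 1)) with hr
  have : Fact r.Prime := ⟨hprime⟩
  have := hNnor j
  have := hNnor (j + 1)
  obtain ⟨x₀, hx₀M, hx₀K, ⟨e, hx₀o⟩, hMle⟩ := exists_r_element hle hr.symm hj1 hj2
  have hpg : IsPGroup r (zpowers x₀) := IsPGroup.of_card (n := e) (by rw [Nat.card_zpowers, hx₀o])
  obtain ⟨R, hR⟩ := hpg.exists_le_sylow
  have hx₀R : x₀ ∈ (R : Subgroup G) := hR (mem_zpowers _)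
  have hrs : r ∣ s := by
    have h1 : r ∣ Nat.card G := by
      have h2 : r ∣ Nat.card (N (j + 1)) := relIndex_dvd_card _ _
      exact h2.trans (card_subgroup_dvd_card _)
    rw [hG] at h1
    exact hprime.dvd_of_dvd_pow h1
  have hcR : Nat.card (R : Subgroup G) = r ^ 2 := card_sylow_sq hs hG hrs R
  obtain ⟨g, z, hgz⟩ := hU.exists_common hrs R
  have hV := hU.conj hG g
  set V : Fin 3 → Subgroup G := fun i => cj (g i) (U i) with hVdef
  have hzV : ∀ i, z i ∈ V i := fun i => (hgz i).1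
  have hzR : ∀ i, z i ∈ (R : Subgroup G) := fun i => (hgz i).2.1
  have hzo : ∀ i, orderOf (z i) = r := fun i => (hgz i).2.2
  have hzne : ∀ i j, i ≠ j → z j ∉ zpowers (z i) := fun i j hij => hV.notMem_zpowers hzV hzo hij
  have htwo : ∀ i j, i ≠ j → z i ∈ powSub P → z j ∉ powSub P := by
    intro i j hij h1 h2
    obtain ⟨a, b, hab⟩ := span_of_ne hcR (hzR i) (hzR j) (hzo i) (hzo j) (hzne i j hij) hx₀R
    apply hx₀K
    rw [hab]
    exact mul_mem (zpow_mem h1 _) (zpow_mem h2 _)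
  obtain ⟨i, k₁, k, hik, hik', hkk', hzi, hzk⟩ : ∃ i k₁ k : Fin 3, i ≠ k₁ ∧ i ≠ k ∧ k₁ ≠ k ∧
      z i ∉ powSub P ∧ z k₁ ∉ powSub P := by
    by_cases h0 : z 0 ∈ powSub P
    · exact ⟨1, 2, 0, by decide, by decide, by decide, htwo 0 1 (by decide) h0,
        htwo 0 2 (by decide) h0⟩
    · by_cases h1 : z 1 ∈ powSub P
      · exact ⟨0, 2, 1, by decide, by decide, by decide, h0, htwo 1 2 (by decide) h1⟩
      · exact ⟨0, 1, 2, by decide, by decide, by decide, h0, h1⟩
  obtain ⟨y, hy⟩ := hV.exists_gen hs hG hps hcP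
  have hyV : ∀ i, y i ∈ V i := fun i => by
    have : y i ∈ V i ⊓ P := by rw [(hy i).1]; exact mem_zpowers _
    exact this.1
  have hyP : ∀ i, y i ∈ P := fun i => by
    have : y i ∈ V i ⊓ P := by rw [(hy i).1]; exact mem_zpowers _
    exact this.2
  have hyo : ∀ i, orderOf (y i) = p := fun i => (hy i).2
  have hyne : ∀ i j, i ≠ j → y j ∉ zpowers (y i) := fun i j hij => hV.notMem_zpowers hyV hyo hij
  have hVstab : ∀ i, V i ≤ lineStab (y i) := by
    intro i v hv
    rw [mem_lineStab, ← (hy i).1]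
    exact Subgroup.mem_inf.2 ⟨(V i).mul_mem ((V i).mul_mem hv (hyV i)) ((V i).inv_mem hv),
      hPn.conj_mem _ (hyP i) v⟩
  have hxstab : ∀ i, z i ∉ powSub P → x₀ ∈ lineStab (y i) := by
    intro i hi
    rw [mem_lineStab]
    exact commute_line hcP (hyP i) (hyo i) (mem_lineStab.1 (hVstab i (hzV i))) hi
      (comm_of_sq hcR (hzR i) hx₀R)
  have hKstab : ∀ a ∈ P, powSub P ≤ lineStab a := by
    intro a ha x hx
    rw [mem_lineStab]
    exact hx a ha
  have hMstab : ∀ i, z i ∉ powSub P → N (j + 1) ≤ lineStab (y i) := by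
    intro i hi
    refine hMle.trans (sup_le (hj1.trans (hKstab _ (hyP i))) (zpowers_le.2 (hxstab i hi)))
  -- `V i` stabilises the other line
  have hcross : ∀ i k : Fin 3, i ≠ k → z i ∉ powSub P → z k ∉ powSub P → V i ≤ lineStab (y k) := by
    intro i k hik hi hk h hh
    rw [mem_lineStab]
    by_contra hc
    have hc2 : h * y k * h⁻¹ ∉ zpowers (y i) := by
      intro h1
      have h2 : h⁻¹ ∈ lineStab (y i) := inv_mem (hVstab i hh)
      have h3 : ∀ w ∈ zpowers (y i), h⁻¹ * w * h⁻¹⁻¹ ∈ zpowers (y i) := by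
        intro w hw
        have h4 : h⁻¹ * w * h⁻¹⁻¹ ∈ zpowers w := h2 w hw
        exact (zpowers_le.2 hw) h4
      have h5 := h3 _ h1
      have h6 : h⁻¹ * (h * y k * h⁻¹) * h⁻¹⁻¹ = y k := by group
      rw [h6] at h5
      exact hyne i k hik h5
    have h7 : x₀ * (h * y k * h⁻¹) * x₀⁻¹ ∈ zpowers (h * y k * h⁻¹) := by
      have h8 : h⁻¹ * x₀ * h ∈ N (j + 1) := by
        have := (hNnor (j + 1)).conj_mem x₀ hx₀M h⁻¹
        simpa using this
      obtain ⟨m, hm⟩ := mem_lineStab.1 (hMstab k hk h8)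
      simp only at hm
      refine ⟨m, ?_⟩
      simp only
      rw [conj_zpow, hm]
      group
    apply hx₀K
    exact mem_powSub_of_lines hcP (hyP i) (hyP k) (hPn.conj_mem _ (hyP k) h) (hyo i) (hyo k)
      (hyne i k hik) hc2 hc (mem_lineStab.1 (hxstab i hi)) (mem_lineStab.1 (hxstab k hk)) h7
  have hfull : ∀ i k : Fin 3, i ≠ k → z i ∉ powSub P → z k ∉ powSub P →
      ∀ h : G, h ∈ lineStab (y k) := by
    intro i k hik hi hk h
    obtain ⟨a, ha, b, hb, rfl⟩ := hV.exists_mul hG hik h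
    exact mul_mem (hcross i k hik hi hk ha) (hVstab k hb)
  have hnorm : ∀ i k : Fin 3, i ≠ k → z i ∉ powSub P → z k ∉ powSub P → (U k ⊓ P).Normal := by
    intro i k hik hi hk
    have h1 : (V k ⊓ P).Normal := by
      refine ⟨fun w hw h => ?_⟩
      rw [(hy k).1] at hw ⊢
      have h2 := hfull i k hik hi hk h
      have h3 : h * w * h⁻¹ ∈ zpowers w := h2 w hw
      exact (zpowers_le.2 hw) h3
    have h4 : U k ⊓ P = V k ⊓ P := by
      apply le_antisymm
      · intro w hw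
        have h5 : g k * w * (g k)⁻¹ ∈ V k ⊓ P := by
          refine Subgroup.mem_inf.2 ⟨?_, hPn.conj_mem _ hw.2 _⟩
          rw [hVdef]
          simp only
          rw [mem_cj]
          have : (g k)⁻¹ * (g k * w * (g k)⁻¹) * g k = w := by group
          rw [this]; exact hw.1
        have h6 := h1.conj_mem _ h5 (g k)⁻¹
        have h7 : (g k)⁻¹ * (g k * w * (g k)⁻¹) * (g k)⁻¹⁻¹ = w := by group
        rw [h7] at h6; exact h6
      · intro w hw
        have h5 := h1.conj_mem _ hw (g k)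
        have h6 := mem_cj.1 h5.1
        have h7 : (g k)⁻¹ * (g k * w * (g k)⁻¹) * g k = w := by group
        rw [h7] at h6
        exact ⟨h6, hw.2⟩
    rw [h4]; exact h1
  have hni : (U i ⊓ P).Normal := hnorm k₁ i hik.symm hzk hzi
  have hnk : (U k₁ ⊓ P).Normal := hnorm i k₁ hik hzi hzk
  obtain ⟨y', hy'⟩ := hU.exists_gen hs hG hps hcP
  have hyU' : ∀ i, y' i ∈ U i := fun i => by
    have : y' i ∈ U i ⊓ P := by rw [(hy' i).1]; exact mem_zpowers _
    exact this.1
  have hyP' : ∀ i, y' i ∈ P := fun i => by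
    have : y' i ∈ U i ⊓ P := by rw [(hy' i).1]; exact mem_zpowers _
    exact this.2
  have hyo' : ∀ i, orderOf (y' i) = p := fun i => (hy' i).2
  have hyne' : ∀ i j, i ≠ j → y' j ∉ zpowers (y' i) :=
    fun i j hij => hU.notMem_zpowers hyU' hyo' hij
  have hstabn : ∀ l, (U l ⊓ P).Normal → ∀ x : G, x * y' l * x⁻¹ ∈ zpowers (y' l) := by
    intro l hl x
    rw [← (hy' l).1]
    apply hl.conj_mem
    rw [(hy' l).1]; exact mem_zpowers _
  have hlast : ∀ x : G, x * y' k * x⁻¹ ∈ zpowers (y' k) → x ∈ powSub P := by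
    intro x hx
    exact mem_powSub_of_lines hcP (hyP' i) (hyP' k₁) (hyP' k) (hyo' i) (hyo' k₁)
      (hyne' i k₁ hik) (hyne' i k hik') (hyne' k₁ k hkk') (hstabn i hni x) (hstabn k₁ hnk x) hx
  refine ⟨k, ?_, ?_, ?_⟩
  · intro l hl
    have : l = i ∨ l = k₁ := fin3_cases i k₁ k l hik hik' hkk' hl
    rcases this with rfl | rfl
    · exact hni
    · exact hnk
  · intro x hx
    apply hlast
    rw [← (hy' k).1]
    exact Subgroup.mem_inf.2 ⟨(U k).mul_mem ((U k).mul_mem hx (hyU' k)) ((U k).inv_mem hx),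
      hPn.conj_mem _ (hyP' k) x⟩
  · intro hkn
    apply hK
    rw [eq_top_iff]
    intro x _
    exact hlast x (hstabn k hkn x)

end Pool.Agent.Lib_MP_53dcbc_co
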