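import Pool.Agent.Lib_MP_53dcbc_co.Local

namespace Pool.Agent.Lib_MP_53dcbc_co

open Subgroup
open scoped Pointwise commutatorElement

universe u

/-- `G` is supersolvable: there is a finite chain of normal subgroups of `G` from the trivial
subgroup to `G` all of whose factors are cyclic. -/
def Supersolvable (G : Type u) [Group G] : Prop :=
  ∃ (n : ℕ) (N : ℕ → Subgroup G), N 0 = ⊥ ∧ N n = ⊤ ∧ (∀ i, (N i).Normal) ∧
    ∀ i < n, N i ≤ N (i + 1) ∧ ∃ g ∈ N (i + 1), N (i + 1) ≤ N i ⊔ zpowers g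

/-- The elements of `K` that normalise `Q` map every element `y` of `Q` to a power of `y`, in
other words they normalise every subgroup of `Q`. -/
def PowerActs {G : Type u} [Group G] (K Q : Subgroup G) : Prop :=
  ∀ x ∈ K, x ∈ normalizer (Q : Set G) → ∀ y ∈ Q, x * y * x⁻¹ ∈ zpowers y

theorem Chain.supersolvable {G : Type u} [Group G] [Finite G] (h : Chain (⊥ : Subgroup G)) :
    Supersolvable G := by
  obtain ⟨n, N, h0, hn, hnor, hstep⟩ := h
  refine ⟨n, N, h0, hn, hnor, fun i hi => ⟨(hstep i hi).1, ?_⟩⟩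
  obtain ⟨hle, hp⟩ := hstep i hi
  have := hnor i
  set r := (N i).relIndex (N (i + 1)) with hr
  have : Fact r.Prime := ⟨hp⟩
  obtain ⟨x, hx, -, -, hx2⟩ := exists_r_element (K := N i) hle hr.symm le_rfl (by
    intro h
    apply hp.ne_one
    rw [hr, relIndex_eq_one]; exact h)
  exact ⟨x, hx, hx2⟩

theorem orderOf_squarefree {G : Type u} [Group G] [Finite G] {s : ℕ} (hs : Squarefree s)
    (hG : Nat.card G = s ^ 2) {U : Fin 3 → Subgroup G} (hU : IsPCP s U) (g : G) :
    Squarefree (orderOf g) := by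
  rw [Nat.squarefree_iff_prime_squarefree]
  intro q hq hqq
  have : Fact q.Prime := ⟨hq⟩
  have hqs : q ∣ s := by
    have h1 : q ∣ s ^ 2 := by
      rw [← hG]
      exact (Dvd.intro _ rfl).trans (hqq.trans (orderOf_dvd_natCard g))
    exact hq.dvd_of_dvd_pow h1
  obtain ⟨m, hm⟩ := hqq
  have hm0 : m ≠ 0 := by
    rintro rfl
    rw [mul_zero] at hm
    exact (orderOf_pos g).ne' hm
  set h := g ^ m with hh
  have hoh : orderOf h = q * q := by
    rw [hh, orderOf_pow_of_dvd hm0 (by rw [hm]; exact Dvd.intro_left _ rfl), hm,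
      Nat.mul_div_cancel _ (Nat.pos_of_ne_zero hm0)]
  have hpg : IsPGroup q (zpowers h) := IsPGroup.of_card (n := 2) (by
    rw [Nat.card_zpowers, hoh, sq])
  obtain ⟨Q, hQ⟩ := hpg.exists_le_sylow
  have hcQ : Nat.card (Q : Subgroup G) = q ^ 2 := card_sylow_sq hs hG hqs Q
  have hQe : zpowers h = (Q : Subgroup G) := eq_of_le_of_card_ge hQ (by
    rw [hcQ, Nat.card_zpowers, hoh, sq])
  obtain ⟨g', z, hgz⟩ := hU.exists_common hqs Q
  have hV := hU.conj hG g'
  have hne : z 1 ∉ zpowers (z 0) :=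
    hV.notMem_zpowers (fun i => (hgz i).1) (fun i => (hgz i).2.2) (by decide)
  have key : ∀ i, z i ∈ zpowers (h ^ q) := by
    intro i
    have h1 : z i ∈ zpowers h := by rw [hQe]; exact (hgz i).2.1
    obtain ⟨a, ha⟩ := h1
    simp only at ha
    have h2 : h ^ (a * q) = 1 := by
      rw [zpow_mul, ha, zpow_natCast, ← (hgz i).2.2, pow_orderOf_eq_one]
    have h3 : ((q * q : ℕ) : ℤ) ∣ a * q := by
      rw [← hoh]; exact orderOf_dvd_iff_zpow_eq_one.2 h2
    obtain ⟨b, hb⟩ := h3
    have h4 : a = q * b := by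
      have hq0 : (q : ℤ) ≠ 0 := by exact_mod_cast hq.ne_zero
      apply mul_right_cancel₀ hq0
      rw [hb]; push_cast; ring
    refine ⟨b, ?_⟩
    simp only
    rw [← ha, h4, zpow_mul, zpow_natCast]
  apply hne
  have h5 : zpowers (z 0) = zpowers (h ^ q) := by
    apply eq_of_le_of_card_ge (zpowers_le.2 (key 0))
    rw [Nat.card_zpowers, Nat.card_zpowers, (hgz 0).2.2,
      orderOf_pow_of_dvd hq.ne_zero (by rw [hoh]; exact Dvd.intro _ rfl), hoh,
      Nat.mul_div_cancel _ hq.pos]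
  rw [h5]
  exact key 1

theorem exists_zpowers_sup {G : Type u} [Group G] [Finite G] {K : Subgroup G} [K.Normal]
    (hc : commutator G ≤ K) (hi : Squarefree K.index) : ∃ g : G, zpowers g ⊔ K = ⊤ := by
  have hcomm : IsMulCommutative (G ⧸ K) :=
    Subgroup.Normal.quotient_commutative_iff_commutator_le.2 hc
  let inst : CommGroup (G ⧸ K) := { (inferInstance : Group (G ⧸ K)) with
    mul_comm := hcomm.is_comm.comm }
  have hZ : IsZGroup (G ⧸ K) := IsZGroup.of_squarefree (by rw [← index_eq_card]; exact hi)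
  have hcyc : IsCyclic (G ⧸ K) := inferInstance
  obtain ⟨x, hx⟩ := hcyc.exists_generator
  obtain ⟨g, rfl⟩ := QuotientGroup.mk'_surjective K x
  refine ⟨g, ?_⟩
  rw [eq_top_iff]
  intro y _
  obtain ⟨k, hk⟩ := hx (QuotientGroup.mk' K y)
  simp only at hk
  have h1 : (g ^ k)⁻¹ * y ∈ K := by
    rw [← QuotientGroup.eq]
    simpa using hk
  have h2 : y = g ^ k * ((g ^ k)⁻¹ * y) := by group
  rw [h2]
  exact mul_mem_sup (zpow_mem (mem_zpowers g) k) h1

theorem necessity {G : Type u} [Group G] [Finite G] {s : ℕ} (hs : Squarefree s)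
    (hG : Nat.card G = s ^ 2) {U : Fin 3 → Subgroup G} (hU : IsPCP s U) :
    (∀ g : G, Squarefree (orderOf g)) ∧ Supersolvable G ∧
      ∃ K : Fin 3 → Subgroup G,
        (∀ i, (K i).Normal ∧ ∃ g : G, zpowers g ⊔ K i = ⊤) ∧
        (∀ i j, i ≠ j → K i ⊔ K j = ⊤) ∧
        ∀ (q : ℕ), q.Prime → ∀ (Q : Sylow q G),
          PowerActs ⊤ (Q : Subgroup G) ∨
            ∃ i, (Q : Subgroup G) ≤ K i ∧ PowerActs (K i) (Q : Subgroup G) := by
  refine ⟨orderOf_squarefree hs hG hU, (structure_thm s G hs hG U hU).1.supersolvable, ?_⟩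
  have hdata : ∀ q : ℕ, q.Prime → q ∣ s → ∃ (K : Subgroup G) (c : Fin 3), K.Normal ∧
      commutator G ≤ K ∧
      (∀ (Q : Sylow q G), ∀ x ∈ K, x ∈ normalizer (Q : Set G) → ∀ y ∈ Q, x * y * x⁻¹ ∈ zpowers y) ∧
      (K = ⊤ ∨ (U c ≤ K ∧ ∀ L : Subgroup G, L.Normal → U c ≤ L → ∀ Q : Sylow q G,
        (Q : Subgroup G) ≤ L)) := fun q hq hqs => local_data hs hG hU hq hqs
  choose! K c hK using hdata
  have hUK : ∀ q, q.Prime → q ∣ s → U (c q) ≤ K q := by
    intro q hq hqs
    rcases (hK q hq hqs).2.2.2 with h | h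
    · rw [h]; exact le_top
    · exact h.1
  let KK : Fin 3 → Subgroup G := fun i => ⨅ q : {q : ℕ // q.Prime ∧ q ∣ s ∧ c q = i}, K q
  have hUKK : ∀ i, U i ≤ KK i := by
    intro i
    refine le_iInf fun q => ?_
    have := hUK q q.2.1 q.2.2.1
    rwa [q.2.2.2] at this
  have hKKn : ∀ i, (KK i).Normal := by
    intro i
    exact normal_iInf_normal fun q => (hK q q.2.1 q.2.2.1).1
  refine ⟨KK, fun i => ⟨hKKn i, ?_⟩, ?_, ?_⟩
  · have := hKKn i
    apply exists_zpowers_sup
    · exact le_iInf fun q => (hK q q.2.1 q.2.2.1).2.1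
    · have h1 : (U i).index = s := by
        have h2 := card_mul_index (U i)
        rw [hU.1, hG, sq] at h2
        exact Nat.eq_of_mul_eq_mul_left (Nat.pos_of_ne_zero hs.ne_zero) h2
      apply hs.squarefree_of_dvd
      rw [← h1]
      exact index_dvd_of_le (hUKK i)
  · intro i j hij
    rw [eq_top_iff]
    intro g _
    obtain ⟨a, ha, b, hb, rfl⟩ := hU.exists_mul hG hij g
    exact mul_mem_sup (hUKK i ha) (hUKK j hb)
  · intro q hq Q
    have : Fact q.Prime := ⟨hq⟩
    by_cases hqs : q ∣ s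
    · by_cases hKt : K q = ⊤
      · left
        intro x _ hxQ y hy
        exact (hK q hq hqs).2.2.1 Q x (by rw [hKt]; trivial) hxQ y hy
      · right
        have h1 := (hK q hq hqs).2.2.2.resolve_left hKt
        refine ⟨c q, ?_, ?_⟩
        · refine le_iInf fun q' => ?_
          apply h1.2 (K q') (hK q' q'.2.1 q'.2.2.1).1
          have := hUK q' q'.2.1 q'.2.2.1
          rwa [q'.2.2.2] at this
        · intro x hx hxQ y hy
          have h2 : KK (c q) ≤ K q := iInf_le_of_le ⟨q, hq, hqs, rfl⟩ le_rfl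
          exact (hK q hq hqs).2.2.1 Q x (h2 hx) hxQ y hy
    · left
      have h1 : (Q : Subgroup G) = ⊥ := by
        obtain ⟨e, he⟩ := Q.isPGroup'.exists_card_eq
        have h2 : q ^ e ∣ s ^ 2 := by
          rw [← hG, ← he]; exact card_subgroup_dvd_card _
        have h3 : e = 0 := by
          by_contra h
          exact hqs (hq.dvd_of_dvd_pow ((dvd_pow_self q h).trans h2))
        rw [h3, pow_zero] at he
        exact card_eq_one.1 he
      intro x _ _ y hy
      rw [h1, mem_bot] at hy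
      subst hy
      simp

end Pool.Agent.Lib_MP_53dcbc_co
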