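import Pool.Agent.Lib_MP_53dcbc_co.Sqfree

namespace Pool.Agent.Lib_MP_53dcbc_co

open Subgroup
open scoped Pointwise

universe u

theorem card_sylow_sq {G : Type u} [Group G] [Finite G] {s : ℕ} (hs : Squarefree s)
    (hG : Nat.card G = s ^ 2) {p : ℕ} [hp : Fact p.Prime] (hps : p ∣ s) (P : Sylow p G) :
    Nat.card P = p ^ 2 := by
  rw [P.card_eq_multiplicity, hG, Nat.factorization_pow]
  have h1 : s.factorization p = 1 := by
    have h2 := (Nat.squarefree_iff_factorization_le_one hs.ne_zero).1 hs p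
    have h3 : 0 < s.factorization p := hp.out.factorization_pos_of_dvd hs.ne_zero hps
    omega
  simp [h1]

theorem IsPCP.notMem_zpowers {G : Type u} [Group G] {s : ℕ} {V : Fin 3 → Subgroup G}
    (hV : IsPCP s V) {p : ℕ} [hp : Fact p.Prime] {y : Fin 3 → G}
    (hy : ∀ i, y i ∈ V i) (ho : ∀ i, orderOf (y i) = p) {i j : Fin 3} (hij : i ≠ j) :
    y j ∉ zpowers (y i) := by
  intro h
  have h1 : y j ∈ V i ⊓ V j := ⟨(zpowers_le.2 (hy i)) h, hy j⟩
  rw [hV.2 i j hij, mem_bot] at h1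
  have h2 := ho j
  rw [h1, orderOf_one] at h2
  exact hp.out.one_lt.ne h2

theorem sylow_normal_of_pcp {G : Type u} [Group G] [Finite G] {s : ℕ} (hs : Squarefree s)
    (hG : Nat.card G = s ^ 2) {U : Fin 3 → Subgroup G} (hU : IsPCP s U) {p : ℕ}
    [hp : Fact p.Prime] (hps : p ∣ s) (hle : ∀ r, r.Prime → r ∣ s → r ≤ p) (P : Sylow p G) :
    (P : Subgroup G).Normal := by
  obtain ⟨g, y, hgy⟩ := hU.exists_common hps P
  have hV := hU.conj hG g
  set V : Fin 3 → Subgroup G := fun i => cj (g i) (U i) with hVdef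
  have hyV : ∀ i, y i ∈ V i := fun i => (hgy i).1
  have hyP : ∀ i, y i ∈ (P : Subgroup G) := fun i => (hgy i).2.1
  have hyo : ∀ i, orderOf (y i) = p := fun i => (hgy i).2.2
  have hcP : Nat.card (P : Subgroup G) = p ^ 2 := card_sylow_sq hs hG hps P
  have hne : ∀ i j, i ≠ j → y j ∉ zpowers (y i) := fun i j hij => hV.notMem_zpowers hyV hyo hij
  have hVcard : ∀ i, Nat.card (V i) = s := hV.1
  have hconj : ∀ i, ∀ v ∈ V i, v * y i * v⁻¹ ∈ zpowers (y i) := by
    intro i v hv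
    apply conj_mem_of_squarefree (U := V i) (by rw [hVcard]; exact hs)
      (by rw [hVcard]; exact hle) (hyV i) (hyo i) hv
  have hC : ∀ i j, i ≠ j → ∀ h : G, Commute (h * y i * h⁻¹) (y j) := by
    intro i j hij h
    obtain ⟨w, hw, v, hv, rfl⟩ := hV.exists_mul hG hij.symm h
    obtain ⟨a, ha⟩ := hconj i v hv
    obtain ⟨b, hb⟩ := hconj j w⁻¹ (inv_mem hw)
    simp only at ha hb
    have e1 : w * v * y i * (w * v)⁻¹ = w * (y i ^ a) * w⁻¹ := by rw [ha]; group
    have e2 : y j = w * (y j ^ b) * w⁻¹ := by rw [hb]; group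
    have h3 : Commute (y i ^ a) (y j ^ b) :=
      (show Commute (y i) (y j) from comm_of_sq hcP (hyP i) (hyP j)).zpow_zpow a b
    rw [e1]
    have h4 : Commute (w * y i ^ a * w⁻¹) (w * y j ^ b * w⁻¹) := by
      unfold Commute SemiconjBy at *
      calc w * y i ^ a * w⁻¹ * (w * y j ^ b * w⁻¹) = w * (y i ^ a * y j ^ b) * w⁻¹ := by group
        _ = w * (y j ^ b * y i ^ a) * w⁻¹ := by rw [h3]
        _ = _ := by group
    rw [← e2] at h4
    exact h4
  have hC2 : ∀ i, ∀ h : G, ∀ z ∈ (P : Subgroup G), Commute (h * y i * h⁻¹) z := by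
    intro i h z hz
    obtain ⟨j, k, hij, hik, hjk⟩ : ∃ j k : Fin 3, i ≠ j ∧ i ≠ k ∧ j ≠ k := by
      fin_cases i
      · exact ⟨1, 2, by decide, by decide, by decide⟩
      · exact ⟨0, 2, by decide, by decide, by decide⟩
      · exact ⟨0, 1, by decide, by decide, by decide⟩
    obtain ⟨a, b, rfl⟩ := span_of_ne hcP (hyP j) (hyP k) (hyo j) (hyo k) (hne j k hjk) hz
    exact ((hC i j hij h).zpow_right a).mul_right ((hC i k hik h).zpow_right b)
  have hC3 : ∀ h : G, ∀ x ∈ (P : Subgroup G), ∀ z ∈ (P : Subgroup G),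
      Commute (h * x * h⁻¹) z := by
    intro h x hx z hz
    obtain ⟨a, b, rfl⟩ := span_of_ne hcP (hyP 0) (hyP 1) (hyo 0) (hyo 1)
      (hne 0 1 (by decide)) hx
    have e : h * (y 0 ^ a * y 1 ^ b) * h⁻¹ = (h * y 0 * h⁻¹) ^ a * (h * y 1 * h⁻¹) ^ b := by
      rw [conj_zpow, conj_zpow]; group
    rw [e]
    exact ((hC2 0 h z hz).zpow_left a).mul_left ((hC2 1 h z hz).zpow_left b)
  refine ⟨fun x hx h => ?_⟩
  have hpz : IsPGroup p (zpowers (h * x * h⁻¹)) := by
    have h1 : IsPGroup p (P : Subgroup G) := P.isPGroup'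
    obtain ⟨k, hk⟩ := h1 ⟨x, hx⟩
    have hk' : x ^ p ^ k = 1 := congrArg Subtype.val hk
    have h2 : (h * x * h⁻¹) ^ p ^ k = 1 := by
      rw [conj_pow, hk']; simp
    apply IsPGroup.of_card_dvd_pow (n := k)
    rw [Nat.card_zpowers]
    exact orderOf_dvd_of_pow_eq_one h2
  have hsup : IsPGroup p ((P : Subgroup G) ⊔ zpowers (h * x * h⁻¹) : Subgroup G) := by
    apply IsPGroup.to_sup_of_normal_left' P.isPGroup' hpz
    rw [zpowers_le, mem_normalizer_iff]
    intro z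
    constructor
    · intro hz
      have : h * x * h⁻¹ * z * (h * x * h⁻¹)⁻¹ = z := by
        rw [hC3 h x hx z hz]; group
      rw [this]; exact hz
    · intro hz
      have h5 := hC3 h x hx _ hz
      have : z = h * x * h⁻¹ * z * (h * x * h⁻¹)⁻¹ := by
        have h6 : h * x * h⁻¹ * (h * x * h⁻¹ * z * (h * x * h⁻¹)⁻¹) =
          h * x * h⁻¹ * z * (h * x * h⁻¹)⁻¹ * (h * x * h⁻¹) := h5
        have h7 : h * x * h⁻¹ * z * (h * x * h⁻¹)⁻¹ * (h * x * h⁻¹) = h * x * h⁻¹ * z := by group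
        rw [h7] at h6
        exact (mul_left_cancel h6).symm
      rw [this]; exact hz
  have h8 := P.is_maximal' hsup le_sup_left
  rw [← h8]
  exact (le_sup_right : zpowers (h * x * h⁻¹) ≤ _) (mem_zpowers _)

end Pool.Agent.Lib_MP_53dcbc_co
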