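import Pool.Agent.Lib_MP_53dcbc_co.SuperSylow

namespace Pool.Agent.Lib_MP_53dcbc_co

open Subgroup
open scoped Pointwise commutatorElement

universe u

variable {G : Type u} [Group G] [Finite G] {p : ℕ} [hp : Fact p.Prime] {P : Subgroup G}

theorem exists_notMem_zpowers (hcP : Nat.card P = p ^ 2) {a : G} (hoa : orderOf a = p) :
    ∃ y ∈ P, y ∉ zpowers a := by
  by_contra h
  push Not at h
  have h1 : P ≤ zpowers a := h
  have h2 := card_le_of_le h1
  rw [Nat.card_zpowers, hoa, hcP] at h2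
  have := hp.out.one_lt
  nlinarith

theorem order_of_ne_one (hexp : ∀ x ∈ P, x ^ p = 1) {x : G} (hx : x ∈ P) (h1 : x ≠ 1) :
    orderOf x = p := orderOf_eq_prime (hexp x hx) h1

theorem inf_line (hcP : Nat.card P = p ^ 2) (hexp : ∀ x ∈ P, x ^ p = 1) {K : Subgroup G}
    [K.Normal] {g : G} (hg : zpowers g ⊔ K = ⊤) (hPK : ¬ P ≤ K) :
    ∃ b, K ⊓ P = zpowers b ∧ orderOf b = p := by
  obtain ⟨h, hh, hh2⟩ := exists_gen_mod (M := K) (H := P) (g := g) (by
    rw [sup_comm, hg]; exact le_top)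
  have hd : Nat.card (K ⊓ P : Subgroup G) ∣ p ^ 2 := by
    rw [← hcP]; exact card_dvd_of_le inf_le_right
  obtain ⟨e, he, hce⟩ := (Nat.dvd_prime_pow hp.out).1 hd
  have he1 : e ≠ 0 := by
    rintro rfl
    rw [pow_zero, card_eq_one] at hce
    have h1 : P ≤ zpowers h := by
      intro x hx
      obtain ⟨k, hk, b, ⟨m, hm⟩, hkb⟩ := mem_sup_of_normal_left.1 (hh2 hx)
      simp only at hm
      have h2 : k ∈ K ⊓ P := by
        refine Subgroup.mem_inf.2 ⟨hk, ?_⟩
        have : k = x * b⁻¹ := by rw [← hkb]; group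
        rw [this, ← hm]
        exact P.mul_mem hx (P.inv_mem (P.zpow_mem hh m))
      rw [hce, mem_bot] at h2
      rw [← hkb, h2, one_mul, ← hm]
      exact zpow_mem (mem_zpowers h) m
    have h2 := card_le_of_le h1
    rw [Nat.card_zpowers, hcP] at h2
    have h3 : orderOf h ≤ p := orderOf_le_of_pow_eq_one hp.out.pos (hexp h hh)
    have := hp.out.one_lt
    nlinarith
  have he2 : e ≠ 2 := by
    rintro rfl
    apply hPK
    have : K ⊓ P = P := eq_of_le_of_card_ge inf_le_right (by rw [hce, hcP])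
    rw [← this]; exact inf_le_left
  have he3 : e = 1 := by omega
  rw [he3, pow_one] at hce
  have hc : IsCyclic (K ⊓ P : Subgroup G) := isCyclic_of_prime_card hce
  obtain ⟨b, hb⟩ := (Subgroup.isCyclic_iff_exists_zpowers_eq_top _).1 hc
  exact ⟨b, hb.symm, by rw [← Nat.card_zpowers, hb, hce]⟩

theorem not_inf_le (hexp : ∀ x ∈ P, x ^ p = 1) [P.Normal] (hidx : Nat.Coprime p P.index)
    {K L : Subgroup G} [K.Normal] [L.Normal] (hKL : K ⊔ L = ⊤) (hPK : ¬ P ≤ K) :
    ¬ L ⊓ P ≤ K := by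
  intro hle
  obtain ⟨y, hy, hyK⟩ := SetLike.not_le_iff_exists.1 hPK
  have h1 : y ∈ K ⊔ L := by rw [hKL]; trivial
  obtain ⟨k, hk, l, hl, hkl⟩ := mem_sup_of_normal_left.1 h1
  have h2 : l ^ P.index ∈ K := hle (Subgroup.mem_inf.2 ⟨pow_mem hl _, pow_index_mem P l⟩)
  have h3 : QuotientGroup.mk' K y = QuotientGroup.mk' K l := by
    rw [← hkl, map_mul]
    have : QuotientGroup.mk' K k = 1 := by
      rw [← MonoidHom.mem_ker, QuotientGroup.ker_mk']; exact hk
    rw [this, one_mul]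
  have h4 : y ^ P.index ∈ K := by
    rw [← QuotientGroup.ker_mk' K, MonoidHom.mem_ker, map_pow, h3, ← map_pow,
      ← MonoidHom.mem_ker, QuotientGroup.ker_mk']
    exact h2
  apply hyK
  have h5 := hexp y hy
  have hg := Nat.gcd_eq_gcd_ab p P.index
  rw [hidx.gcd_eq_one] at hg
  have e1 : y = (y ^ p) ^ (p.gcdA P.index) * (y ^ P.index) ^ (p.gcdB P.index) := by
    rw [← zpow_natCast, ← zpow_natCast, ← zpow_mul, ← zpow_mul, ← zpow_add]
    have : (p : ℤ) * p.gcdA P.index + P.index * p.gcdB P.index = 1 := by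
      rw [← hg]; simp
    rw [this, zpow_one]
  rw [e1, h5, one_zpow, one_mul]
  exact zpow_mem h4 _

theorem dvd_of_zpow_eq_one {a : G} (hoa : orderOf a = p) {i : ℤ} (h : a ^ i = 1) :
    (p : ℤ) ∣ i := by
  rw [← hoa]; exact orderOf_dvd_iff_zpow_eq_one.2 h

theorem exists_second_line [hPn : P.Normal] (hcP : Nat.card P = p ^ 2)
    (hexp : ∀ x ∈ P, x ^ p = 1) (hidx : Nat.Coprime p P.index) {K : Subgroup G}
    (hK : K ≤ powSub P) {g : G} (hg : zpowers g ⊔ K = ⊤) (hne : powSub P ≠ ⊤) {c : G}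
    (hc : c ∈ P) (hoc : orderOf c = p) (hcn : ∀ x : G, x * c * x⁻¹ ∈ zpowers c) :
    ∃ d ∈ P, orderOf d = p ∧ d ∉ zpowers c ∧ ∀ x : G, x * d * x⁻¹ ∈ zpowers d := by
  obtain ⟨y, hy, hyc⟩ := exists_notMem_zpowers hcP hoc
  have hy1 : y ≠ 1 := by
    rintro rfl
    exact hyc (one_mem _)
  have hoy : orderOf y = p := order_of_ne_one hexp hy hy1
  have hcomm : Commute c y := comm_of_sq hcP hc hy
  obtain ⟨a, ha⟩ := hcn g
  simp only at ha
  set d := g * y * g⁻¹ * (y ^ a)⁻¹ with hd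
  have hgy : g * y * g⁻¹ = d * y ^ a := by rw [hd]; group
  have hdP : d ∈ P := P.mul_mem (hPn.conj_mem y hy g) (P.inv_mem (P.zpow_mem hy a))
  have hgK : g ∉ powSub P := by
    intro h
    apply hne
    rw [eq_top_iff, ← hg]
    exact sup_le (zpowers_le.2 h) hK
  have hd1 : d ≠ 1 := by
    intro h
    rw [h, one_mul] at hgy
    apply hgK
    intro z hz
    rw [scalar_of_two hcP hc hy hoc hoy hyc ha.symm hgy hz]
    exact zpow_mem (mem_zpowers z) a
  have hod : orderOf d = p := order_of_ne_one hexp hdP hd1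
  have hdy : Commute d y := comm_of_sq hcP hdP hy
  have hginv : g * d * g⁻¹ ∈ zpowers d := by
    obtain ⟨i, j, hij⟩ := span_of_ne hcP hc hy hoc hoy hyc hdP
    have e1 : g * d * g⁻¹ = (g * c * g⁻¹) ^ i * (g * y * g⁻¹) ^ j := by
      conv_lhs => rw [hij]
      rw [conj_zpow, conj_zpow]; group
    refine ⟨a + j, ?_⟩
    simp only
    rw [e1, ← ha, hgy, (hdy.zpow_right a).mul_zpow, zpow_add]
    have e2 : d ^ a = c ^ (i * a) * y ^ (j * a) := by
      conv_lhs => rw [hij]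
      rw [(hcomm.zpow_zpow i j).mul_zpow, ← zpow_mul, ← zpow_mul]
    rw [e2, ← zpow_mul, ← zpow_mul, mul_comm a i, mul_comm a j]
    have e3 : Commute (y ^ (j * a)) (d ^ j) := (hdy.symm).zpow_zpow _ _
    rw [mul_assoc, e3.eq]
  refine ⟨d, hdP, hod, ?_, ?_⟩
  · rintro ⟨i, hi⟩
    simp only at hi
    have key : ∀ n : ℕ, ∃ e : ℤ, a * e = n * i * a ^ n ∧
        g ^ n * y * (g ^ n)⁻¹ = c ^ e * y ^ (a ^ n) := by
      intro n
      induction n with
      | zero => exact ⟨0, by simp, by simp⟩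
      | succ n ihn =>
        obtain ⟨e, he, he2⟩ := ihn
        refine ⟨a * e + i * a ^ n, ?_, ?_⟩
        · rw [mul_add, he]; push_cast; ring
        · have e1 : g ^ (n + 1) * y * (g ^ (n + 1))⁻¹ = g * (g ^ n * y * (g ^ n)⁻¹) * g⁻¹ := by
            rw [pow_succ']; group
          have e2 : g * (c ^ e * y ^ a ^ n) * g⁻¹ = (g * c * g⁻¹) ^ e * (g * y * g⁻¹) ^ (a ^ n) := by
            rw [conj_zpow, conj_zpow]; group
          rw [e1, he2, e2, ← ha, hgy, ← hi, (hcomm.zpow_zpow i a).mul_zpow, ← zpow_mul,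
            ← zpow_mul, ← zpow_mul, ← mul_assoc, ← zpow_add, pow_succ']
    obtain ⟨e, he, he2⟩ := key P.index
    have h1 : g ^ P.index ∈ P := pow_index_mem P g
    have h2 : g ^ P.index * y * (g ^ P.index)⁻¹ = y := by
      rw [comm_of_sq hcP h1 hy]; group
    rw [h2] at he2
    have h3 : c ^ e = y * (y ^ a ^ P.index)⁻¹ := by
      rw [eq_mul_inv_iff_mul_eq]; exact he2.symm
    have h4 : c ^ e ∈ zpowers c ⊓ zpowers y := by
      refine Subgroup.mem_inf.2 ⟨zpow_mem (mem_zpowers c) e, ?_⟩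
      rw [h3]
      exact (zpowers y).mul_mem (mem_zpowers y) ((zpowers y).inv_mem (zpow_mem (mem_zpowers y) _))
    rw [zpowers_inf_eq_bot hoc hoy hyc, mem_bot] at h4
    have h5 := dvd_of_zpow_eq_one hoc h4
    have h6 : (p : ℤ) ∣ P.index * i * a ^ P.index := by
      rw [← he]; exact Dvd.dvd.mul_left h5 a
    have hpi : Prime (p : ℤ) := Nat.prime_iff_prime_int.1 hp.out
    rcases hpi.dvd_or_dvd h6 with h7 | h7
    · rcases hpi.dvd_or_dvd h7 with h8 | h8
      · have h9 : p ∣ P.index := by exact_mod_cast h8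
        exact ((Nat.Prime.coprime_iff_not_dvd hp.out).1 hidx) h9
      · apply hd1
        rw [← hi]
        exact orderOf_dvd_iff_zpow_eq_one.1 (by rw [hoc]; exact h8)
    · have h8 := hpi.dvd_of_dvd_pow h7
      have h9 : c ^ a = 1 := orderOf_dvd_iff_zpow_eq_one.1 (by rw [hoc]; exact h8)
      rw [h9] at ha
      have h10 : c = 1 := by
        have : c = g⁻¹ * (g * c * g⁻¹) * g := by group
        rw [this, ← ha]; simp
      rw [h10, orderOf_one] at hoc
      exact hp.out.one_lt.ne hoc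
  · intro x
    have h1 : (⊤ : Subgroup G) ≤ lineStab d := by
      rw [← hg]
      refine sup_le (zpowers_le.2 (mem_lineStab.2 hginv)) ?_
      intro k hk
      exact mem_lineStab.2 (hK hk d hdP)
    exact mem_lineStab.1 (h1 (mem_top x))

end Pool.Agent.Lib_MP_53dcbc_co
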