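import Pool.Agent.Lib_MP_53dcbc_co.Normal

namespace Pool.Agent.Lib_MP_53dcbc_co

open Subgroup
open scoped Pointwise

universe u

theorem card_quot {G : Type u} [Group G] [Finite G] {s t u : ℕ} (hs : Squarefree s)
    (hst : s = t * u) (hG : Nat.card G = s ^ 2) {N : Subgroup G} (hN : Nat.card N = t ^ 2) :
    Nat.card (G ⧸ N) = u ^ 2 := by
  have h := card_eq_card_quotient_mul_card_subgroup N
  rw [hG, hN, hst, mul_pow, mul_comm] at h
  have ht : 0 < t ^ 2 := by
    have : t ≠ 0 := by
      rintro rfl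
      rw [zero_mul] at hst
      exact hs.ne_zero hst
    positivity
  exact (Nat.eq_of_mul_eq_mul_right ht h).symm

theorem IsPCP.quotient {G : Type u} [Group G] [Finite G] {s t u : ℕ} (hs : Squarefree s)
    (hst : s = t * u) (hG : Nat.card G = s ^ 2) {U : Fin 3 → Subgroup G} (hU : IsPCP s U)
    {N : Subgroup G} [N.Normal] (hN : Nat.card N = t ^ 2) :
    IsPCP u (fun i => (U i).map (QuotientGroup.mk' N)) := by
  have hq := card_quot hs hst hG hN
  have hcop : Nat.Coprime t u := Nat.coprime_of_squarefree_mul (hst ▸ hs)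
  have hcard : ∀ i, Nat.card ((U i).map (QuotientGroup.mk' N)) = u := by
    intro i
    set c := Nat.card ((U i).map (QuotientGroup.mk' N)) with hc
    have h1 : c = N.relIndex (U i) := by
      rw [hc, ← relIndex_ker, QuotientGroup.ker_mk']
    have h2 : c * Nat.card (N ⊓ U i : Subgroup G) = s := by
      rw [h1, ← hU.1 i, ← relIndex_bot_left (N ⊓ U i), ← inf_relIndex_right N (U i)]
      rw [mul_comm, relIndex_mul_relIndex _ _ _ bot_le inf_le_right, relIndex_bot_left]
    have h3 : c ∣ u ^ 2 := by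
      rw [← hq]; exact card_subgroup_dvd_card _
    have h4 : Nat.card (N ⊓ U i : Subgroup G) ∣ t ^ 2 := by
      rw [← hN]; exact card_dvd_of_le inf_le_left
    have h5 : c ∣ u := by
      have h6 : Nat.Coprime c t := (Nat.Coprime.coprime_dvd_left h3 (Nat.Coprime.pow_left 2 hcop.symm))
      apply h6.dvd_of_dvd_mul_left
      rw [← hst, ← h2]; exact Dvd.intro _ rfl
    have h7 : Nat.card (N ⊓ U i : Subgroup G) ∣ t := by
      have h6 : Nat.Coprime (Nat.card (N ⊓ U i : Subgroup G)) u :=
        (Nat.Coprime.coprime_dvd_left h4 (Nat.Coprime.pow_left 2 hcop))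
      apply h6.dvd_of_dvd_mul_right
      rw [← hst, ← h2]; exact Dvd.intro_left _ rfl
    have ht : 0 < t := Nat.pos_of_ne_zero (by
      rintro rfl
      rw [zero_mul] at hst
      exact hs.ne_zero hst)
    have hu : 0 < u := Nat.pos_of_ne_zero (by
      rintro rfl
      rw [mul_zero] at hst
      exact hs.ne_zero hst)
    have h8 := Nat.le_of_dvd hu h5
    have h9 := Nat.le_of_dvd ht h7
    by_contra hne
    have h10 : c < u := lt_of_le_of_ne h8 hne
    have h11 : c * Nat.card (N ⊓ U i : Subgroup G) < u * t := by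
      calc c * Nat.card (N ⊓ U i : Subgroup G) ≤ c * t := Nat.mul_le_mul_left _ h9
        _ < u * t := Nat.mul_lt_mul_of_pos_right h10 ht
    rw [h2, hst, mul_comm] at h11
    exact lt_irrefl _ h11
  refine ⟨hcard, fun i j hij => ?_⟩
  have h : IsComplement' ((U i).map (QuotientGroup.mk' N)) ((U j).map (QuotientGroup.mk' N)) := by
    refine (Nat.bijective_iff_surjective_and_card _).2 ⟨?_, ?_⟩
    · intro x
      obtain ⟨g, rfl⟩ := QuotientGroup.mk'_surjective N x
      obtain ⟨a, ha, b, hb, rfl⟩ := hU.exists_mul hG hij g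
      exact ⟨⟨⟨_, mem_map_of_mem _ ha⟩, ⟨_, mem_map_of_mem _ hb⟩⟩, by simp⟩
    · rw [Nat.card_prod]
      have e1 := hcard i
      have e2 := hcard j
      change Nat.card ((U i).map (QuotientGroup.mk' N)) * Nat.card ((U j).map (QuotientGroup.mk' N)) = _
      rw [e1, e2, hq, sq]
  exact disjoint_iff.1 h.disjoint

end Pool.Agent.Lib_MP_53dcbc_co
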