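import Pool.Agent.Lib_MP_53dcbc_co.Lines

namespace Pool.Agent.Lib_MP_53dcbc_co

open Subgroup
open scoped Pointwise

universe u

theorem isPGroup_of_primes {H : Type*} [Group H] [Finite H] {p : ℕ} [hp : Fact p.Prime]
    (h : ∀ r, r.Prime → r ∣ Nat.card H → r = p) : IsPGroup p H := by
  rw [IsPGroup.iff_card]
  exact ⟨_, Nat.eq_prime_pow_of_unique_prime_dvd Nat.card_pos.ne' fun {r} hr hd => h r hr hd⟩

theorem sylow_normal_of_squarefree (n : ℕ) : ∀ (H : Type u) [Group H] [Finite H],
    Nat.card H = n → Squarefree n → ∀ (p : ℕ) [Fact p.Prime],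
    (∀ r, r.Prime → r ∣ n → r ≤ p) → ∀ P : Sylow p H, (P : Subgroup H).Normal := by
  induction n using Nat.strong_induction_on with
  | _ n ih =>
  intro H _ _ hn hsq p hp hle P
  by_cases hn1 : n = 1
  · have : Subsingleton H := (Nat.card_eq_one_iff_unique.1 (hn.trans hn1)).1
    have h1 : (P : Subgroup H) = ⊥ := Subsingleton.elim _ _
    rw [h1]; infer_instance
  have hq : n.minFac.Prime := Nat.minFac_prime hn1
  haveI := Fact.mk hq
  by_cases hqp : n.minFac = p
  · have hH : IsPGroup p H := by
      apply isPGroup_of_primes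
      intro r hr hd
      rw [hn] at hd
      exact le_antisymm (hle r hr hd) (hqp ▸ Nat.minFac_le_of_dvd hr.two_le hd)
    have h1 : (P : Subgroup H) = ⊤ := by
      have h2 : IsPGroup p (⊤ : Subgroup H) := hH.to_subgroup ⊤
      obtain ⟨Q, hQ⟩ := h2.exists_le_sylow
      have : (Q : Subgroup H) = ⊤ := top_le_iff.1 hQ
      have h3 : P = Q := by
        apply Sylow.ext
        have h4 := P.is_maximal' h2 le_top
        rw [this]; exact h4.symm
      rw [h3, this]
    rw [h1]; infer_instance
  · obtain ⟨Q⟩ : Nonempty (Sylow n.minFac H) := inferInstance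
    haveI hZ : IsZGroup H := IsZGroup.of_squarefree (hn ▸ hsq)
    have hmf : (Nat.card H).minFac = n.minFac := by rw [hn]
    have hQc : IsCyclic Q := inferInstance
    have hcomp := IsCyclic.isComplement' hmf hQc
    set K := (MonoidHom.transferSylow Q (hQc.normalizer_le_centralizer hmf)).ker with hK
    have hcard := hcomp.card_mul_card
    have hQne : Nat.card Q ≠ 1 := by
      have h1 : n.minFac ∣ Nat.card Q := 
        Q.dvd_card_of_dvd_card (by rw [hn]; exact Nat.minFac_dvd n)
      intro h2
      rw [h2] at h1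
      exact hq.one_lt.ne' (Nat.dvd_one.1 h1)
    have hKlt : Nat.card K < n := by
      rw [← hn, ← hcard]
      have h1 : 0 < Nat.card K := Nat.card_pos
      have h2 : 0 < Nat.card Q := Nat.card_pos
      have h3 : 1 < Nat.card Q := by omega
      exact lt_mul_of_one_lt_right h1 h3
    have hKd : Nat.card K ∣ n := by
      rw [← hn, ← hcard]; exact Dvd.intro _ rfl
    have hPK : (P : Subgroup H) ≤ K := by
      have h1 : Nat.Coprime (Nat.card P) K.index := by
        rw [hcomp.symm.index_eq_card]
        obtain ⟨a, ha⟩ := P.isPGroup'.exists_card_eq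
        obtain ⟨b, hb⟩ := Q.isPGroup'.exists_card_eq
        rw [ha, hb]
        exact Nat.Coprime.pow a b ((Nat.coprime_primes hp.out hq).2 (Ne.symm hqp))
      have h2 : (P : Subgroup H).relIndex K = 0 ∨ True := Or.inr trivial
      have h3 : K.relIndex (P : Subgroup H) ∣ K.index := relIndex_dvd_index_of_normal K P
      have h4 : K.relIndex (P : Subgroup H) ∣ Nat.card P := by
        exact Subgroup.relIndex_dvd_card K P
      exact relIndex_eq_one.1 (Nat.eq_one_of_dvd_coprimes h1 h4 h3)
    have hPn : (P.subtype hPK : Subgroup K).Normal := by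
      apply ih (Nat.card K) hKlt K rfl (hsq.squarefree_of_dvd hKd) p
      intro r hr hd
      exact hle r hr (hd.trans hKd)
    have hch : (P.subtype hPK : Subgroup K).Characteristic := Sylow.characteristic_of_normal _ hPn
    haveI := hch
    have h5 : ((P.subtype hPK : Subgroup K).map K.subtype).Normal := inferInstance
    rw [Sylow.coe_subtype, subgroupOf_map_subtype, inf_eq_left.2 hPK] at h5
    exact h5

/-- In a subgroup of squarefree order, for the largest prime, elements of that prime order
generate a normal subgroup. -/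
theorem conj_mem_of_squarefree {G : Type u} [Group G] [Finite G] {U : Subgroup G} {p : ℕ}
    [hp : Fact p.Prime] (hsq : Squarefree (Nat.card U))
    (hle : ∀ r, r.Prime → r ∣ Nat.card U → r ≤ p) {x : G} (hx : x ∈ U) (hox : orderOf x = p)
    {u : G} (hu : u ∈ U) : u * x * u⁻¹ ∈ zpowers x := by
  have hpg : IsPGroup p (zpowers (⟨x, hx⟩ : U)) := by
    apply IsPGroup.of_card (n := 1)
    rw [Nat.card_zpowers, pow_one, ← Subgroup.orderOf_coe]
    exact hox
  obtain ⟨P, hP⟩ := hpg.exists_le_sylow
  have hn := sylow_normal_of_squarefree (Nat.card U) U rfl hsq p hle P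
  have hcard : Nat.card P = p := by
    obtain ⟨k, hk⟩ := P.isPGroup'.exists_card_eq
    have h1 : p ^ k ∣ Nat.card U := hk ▸ P.card_subgroup_dvd_card
    have h2 : k ≤ 1 := by
      by_contra hk2
      have h3 : p * p ∣ Nat.card U := by
        rw [← sq]
        exact (pow_dvd_pow p (by omega)).trans h1
      exact hp.out.not_isUnit (hsq p h3)
    have h4 : Nat.card (zpowers (⟨x, hx⟩ : U)) ∣ Nat.card P := card_dvd_of_le hP
    rw [Nat.card_zpowers, ← Subgroup.orderOf_coe] at h4
    have h5 : p ∣ p ^ k := by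
      rw [← hk]
      have : orderOf ((⟨x, hx⟩ : U) : G) = p := hox
      rwa [this] at h4
    have h6 : k ≠ 0 := by
      rintro rfl
      rw [pow_zero] at h5
      exact hp.out.one_lt.ne' (Nat.dvd_one.1 h5)
    have h7 : k = 1 := by omega
    rw [hk, h7, pow_one]
  have hPz : (P : Subgroup U) = zpowers (⟨x, hx⟩ : U) := by
    symm
    apply eq_of_le_of_card_ge hP
    rw [hcard, Nat.card_zpowers, ← Subgroup.orderOf_coe]
    exact hox.ge
  have h8 := hn.conj_mem ⟨x, hx⟩ (hP (mem_zpowers _)) ⟨u, hu⟩
  rw [hPz] at h8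
  obtain ⟨k, hk⟩ := h8
  exact ⟨k, by simpa using congrArg Subtype.val hk⟩

end Pool.Agent.Lib_MP_53dcbc_co
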