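import Pool.Agent.Lib_MP_53dcbc_co.Three

namespace Pool.Agent.Lib_MP_53dcbc_co

open Subgroup
open scoped Pointwise commutatorElement

universe u

/-- `K ∩ H` is the image of `K` under the projection `G = P H → H` -/
theorem part_mem {G : Type u} [Group G] [Finite G] {p t : ℕ}
    {P H K : Subgroup G} [hKn : K.Normal] (hexp : ∀ x ∈ P, x ^ p = 1)
    (hcH : Nat.card H = t ^ 2) (hpt : Nat.Coprime p t) {u h : G} (hu : u ∈ P) (hh : h ∈ H)
    (hk : u * h ∈ K) : h ∈ K := by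
  have h1 : (QuotientGroup.mk' K) h = ((QuotientGroup.mk' K) u)⁻¹ := by
    rw [eq_inv_iff_mul_eq_one, ← map_mul, ← MonoidHom.mem_ker, QuotientGroup.ker_mk']
    exact hKn.mem_comm hk
  have h2 : (QuotientGroup.mk' K h) ^ p = 1 := by
    rw [h1, inv_pow, ← map_pow, hexp u hu, map_one, inv_one]
  have h3 : h ^ (t ^ 2) = 1 := by
    have h4 : (⟨h, hh⟩ : H) ^ Nat.card H = 1 := pow_card_eq_one'
    rw [hcH] at h4
    exact congrArg Subtype.val h4
  have h5 : (QuotientGroup.mk' K h) ^ (t ^ 2) = 1 := by rw [← map_pow, h3, map_one]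
  have h6 : orderOf (QuotientGroup.mk' K h) = 1 :=
    Nat.eq_one_of_dvd_coprimes (hpt.pow_right 2) (orderOf_dvd_of_pow_eq_one h2)
      (orderOf_dvd_of_pow_eq_one h5)
  rw [orderOf_eq_one_iff] at h6
  rw [← QuotientGroup.ker_mk' K, MonoidHom.mem_ker]
  exact h6

theorem unique_parts {G : Type u} [Group G] {P H : Subgroup G} (hPH : P ⊓ H = ⊥)
    {u u' h h' : G} (hu : u ∈ P) (hu' : u' ∈ P) (hh : h ∈ H) (hh' : h' ∈ H)
    (he : u * h = u' * h') : u = u' ∧ h = h' := by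
  have h1 : u'⁻¹ * u = h' * h⁻¹ := by
    rw [inv_mul_eq_iff_eq_mul, ← mul_assoc, eq_mul_inv_iff_mul_eq]
    exact he
  have h2 : u'⁻¹ * u ∈ P ⊓ H := by
    refine Subgroup.mem_inf.2 ⟨P.mul_mem (P.inv_mem hu') hu, ?_⟩
    rw [h1]
    exact H.mul_mem hh' (H.inv_mem hh)
  have h3 := h2
  rw [h1] at h3
  rw [hPH, mem_bot] at h2 h3
  exact ⟨(inv_mul_eq_one.1 h2).symm, (mul_inv_eq_one.1 h3).symm⟩

theorem sup_subgroupOf {G : Type u} [Group G] [Finite G] {p t : ℕ}
    {P H K L : Subgroup G} [hPn : P.Normal] [hKn : K.Normal] [hLn : L.Normal]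
    (hexp : ∀ x ∈ P, x ^ p = 1)
    (hcH : Nat.card H = t ^ 2) (hpt : Nat.Coprime p t) (hPH : P ⊓ H = ⊥) (hPHt : P ⊔ H = ⊤)
    (hKL : K ⊔ L = ⊤) : K.subgroupOf H ⊔ L.subgroupOf H = ⊤ := by
  rw [eq_top_iff]
  rintro ⟨h, hh⟩ _
  obtain ⟨k, hk, l, hl, hkl⟩ := mem_sup_of_normal_left.1
    (show h ∈ K ⊔ L by rw [hKL]; trivial)
  obtain ⟨u, hu, a, ha, hua⟩ := mem_sup_of_normal_left.1
    (show k ∈ P ⊔ H by rw [hPHt]; trivial)
  obtain ⟨v, hv, b, hb, hvb⟩ := mem_sup_of_normal_left.1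
    (show l ∈ P ⊔ H by rw [hPHt]; trivial)
  have h1 : a ∈ K := part_mem hexp hcH hpt hu ha (by rw [hua]; exact hk)
  have h2 : b ∈ L := part_mem hexp hcH hpt hv hb (by rw [hvb]; exact hl)
  have h3 : 1 * h = (u * (a * v * a⁻¹)) * (a * b) := by
    rw [one_mul, ← hkl, ← hua, ← hvb]; group
  have h4 := (unique_parts hPH (one_mem P) (P.mul_mem hu (hPn.conj_mem v hv a)) hh
    (H.mul_mem ha hb) h3).2
  have h5 : (⟨h, hh⟩ : H) = ⟨a, ha⟩ * ⟨b, hb⟩ := Subtype.ext h4
  rw [h5]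
  exact mul_mem_sup (show (⟨a, ha⟩ : H) ∈ K.subgroupOf H from mem_subgroupOf.2 h1)
    (show (⟨b, hb⟩ : H) ∈ L.subgroupOf H from mem_subgroupOf.2 h2)

theorem exists_gen_subgroupOf {G : Type u} [Group G] {K H : Subgroup G} [K.Normal] {g : G}
    (hg : zpowers g ⊔ K = ⊤) : ∃ h : H, zpowers h ⊔ K.subgroupOf H = ⊤ := by
  obtain ⟨h, hh, hh2⟩ := exists_gen_mod (M := K) (H := H) (g := g) (by
    rw [sup_comm, hg]; exact le_top)
  refine ⟨⟨h, hh⟩, ?_⟩
  rw [eq_top_iff]
  intro x _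
  obtain ⟨a, ha, b, ⟨k, hk⟩, hab⟩ := mem_sup_of_normal_left.1 (hh2 x.2)
  simp only at hk
  have h2 : x * ((⟨h, hh⟩ : H) ^ k)⁻¹ ∈ K.subgroupOf H := by
    rw [mem_subgroupOf]
    push_cast
    rw [← hab, hk]
    simpa using ha
  have h3 : x = x * ((⟨h, hh⟩ : H) ^ k)⁻¹ * (⟨h, hh⟩ : H) ^ k := by group
  rw [h3, sup_comm]
  exact mul_mem_sup h2 (zpow_mem (mem_zpowers _) k)

theorem zpow_conj_mem {G : Type u} [Group G] {x a : G} (h : x * a * x⁻¹ ∈ zpowers a) {y : G}
    (hy : y ∈ zpowers a) : x * y * x⁻¹ ∈ zpowers a := by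
  obtain ⟨k, hk⟩ := hy
  simp only at hk
  rw [← hk, ← conj_zpow]
  exact zpow_mem h k

theorem sylow_transfer {G : Type u} [Group G] [Finite G] {s t : ℕ} (hs : Squarefree s)
    (ht : Squarefree t) (hts : t ∣ s) (hG : Nat.card G = s ^ 2) {H : Subgroup G}
    (hcH : Nat.card H = t ^ 2) {K : Fin 3 → Subgroup G}
    (hK : ∀ q : ℕ, q.Prime → ∀ Q : Sylow q G, PowerActs ⊤ (Q : Subgroup G) ∨
            ∃ i, (Q : Subgroup G) ≤ K i ∧ PowerActs (K i) (Q : Subgroup G))
    (q : ℕ) (hq : q.Prime) (Q : Sylow q H) : PowerActs ⊤ (Q : Subgroup H) ∨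
      ∃ i, (Q : Subgroup H) ≤ (K i).subgroupOf H ∧
        PowerActs ((K i).subgroupOf H) (Q : Subgroup H) := by
  have : Fact q.Prime := ⟨hq⟩
  by_cases hqt : q ∣ t
  · have hcQ : Nat.card (Q : Subgroup H) = q ^ 2 := card_sylow_sq ht hcH hqt Q
    have hcQ' : Nat.card ((Q : Subgroup H).map H.subtype) = q ^ 2 := by
      rw [← hcQ]; exact card_map_of_injective (subtype_injective H)
    obtain ⟨R, hR⟩ := (IsPGroup.of_card hcQ').exists_le_sylow
    have hcR : Nat.card (R : Subgroup G) = q ^ 2 := card_sylow_sq hs hG (hqt.trans hts) R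
    have hRe : (Q : Subgroup H).map H.subtype = (R : Subgroup G) :=
      eq_of_le_of_card_ge hR (by rw [hcR, hcQ'])
    have key : ∀ M : Subgroup G, PowerActs M (R : Subgroup G) →
        PowerActs (M.subgroupOf H) (Q : Subgroup H) := by
      intro M hM x hx hxQ y hy
      have h1 : (x : G) ∈ normalizer ((R : Subgroup G) : Set G) := by
        rw [mem_normalizer_iff] at hxQ ⊢
        intro z
        rw [← hRe]
        constructor
        · intro hz
          obtain ⟨w, hw, hwz⟩ := hz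
          refine ⟨x * w * x⁻¹, (hxQ w).1 hw, ?_⟩
          rw [← hwz]; simp
        · intro hz
          obtain ⟨w, hw, hwz⟩ := hz
          refine ⟨x⁻¹ * w * x, ?_, ?_⟩
          · apply (hxQ _).2
            have : x * (x⁻¹ * w * x) * x⁻¹ = w := by group
            rw [this]; exact hw
          · have h2 : (w : G) = x * z * (x : G)⁻¹ := hwz
            simp only [subtype_apply, coe_mul, coe_inv]
            rw [h2]; group
      have h2 : (y : G) ∈ R := by
        change (y : G) ∈ (R : Subgroup G)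
        rw [← hRe]
        exact mem_map_of_mem H.subtype hy
      obtain ⟨k, hk⟩ := hM x hx h1 y h2
      simp only at hk
      refine ⟨k, ?_⟩
      apply Subtype.ext
      simpa using hk
    rcases hK q hq R with h | ⟨i, h1, h2⟩
    · left
      have := key ⊤ h
      rwa [top_subgroupOf] at this
    · right
      refine ⟨i, ?_, key _ h2⟩
      intro x hx
      rw [mem_subgroupOf]
      apply h1
      rw [← hRe]
      exact mem_map_of_mem H.subtype hx
  · left
    have h1 : (Q : Subgroup H) = ⊥ := by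
      obtain ⟨e, he⟩ := Q.isPGroup'.exists_card_eq
      have h2 : q ^ e ∣ t ^ 2 := by
        rw [← hcH, ← he]; exact card_subgroup_dvd_card _
      have h3 : e = 0 := by
        by_contra h
        exact hqt (hq.dvd_of_dvd_pow ((dvd_pow_self q h).trans h2))
      rw [h3, pow_zero] at he
      exact card_eq_one.1 he
    intro x _ _ y hy
    rw [h1, mem_bot] at hy
    subst hy
    simp

theorem sufficiency (s : ℕ) : ∀ (G : Type u) [Group G] [Finite G], Squarefree s →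
    Nat.card G = s ^ 2 → (∀ g : G, Squarefree (orderOf g)) → Supersolvable G →
    ∀ K : Fin 3 → Subgroup G, (∀ i, (K i).Normal ∧ ∃ g : G, zpowers g ⊔ K i = ⊤) →
    (∀ i j, i ≠ j → K i ⊔ K j = ⊤) →
    (∀ q : ℕ, q.Prime → ∀ Q : Sylow q G, PowerActs ⊤ (Q : Subgroup G) ∨
            ∃ i, (Q : Subgroup G) ≤ K i ∧ PowerActs (K i) (Q : Subgroup G)) →
    ∃ U : Fin 3 → Subgroup G, IsPCP s U ∧ ∀ i, U i ≤ K i := by
  induction s using Nat.strong_induction_on with
  | _ s ih =>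
  intro G _ _ hs hG hord hsup K hK hKK hSyl
  by_cases h1 : s = 1
  · subst h1
    have hsub : Subsingleton G := (Nat.card_eq_one_iff_unique.1 (by rw [hG]; norm_num)).1
    exact ⟨fun _ => ⊥, ⟨fun _ => by simp, fun i j _ => by simp⟩, fun _ => bot_le⟩
  obtain ⟨p, hp, hps, hle⟩ := exists_max_prime hs.ne_zero h1
  have : Fact p.Prime := ⟨hp⟩
  obtain ⟨P⟩ : Nonempty (Sylow p G) := inferInstance
  have hPn : (P : Subgroup G).Normal := by
    apply hsup.sylow_normal (s ^ 2) G hG p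
    intro r hr hd
    exact hle r hr (hr.dvd_of_dvd_pow hd)
  have hcP : Nat.card (P : Subgroup G) = p ^ 2 := card_sylow_sq hs hG hps P
  have hexp : ∀ x ∈ (P : Subgroup G), x ^ p = 1 := by
    intro x hx
    have h2 : orderOf x ∣ p ^ 2 := by
      rw [← hcP]
      have := orderOf_dvd_natCard (⟨x, hx⟩ : (P : Subgroup G))
      rwa [← Subgroup.orderOf_coe] at this
    obtain ⟨e, he, hoe⟩ := (Nat.dvd_prime_pow hp).1 h2
    have h3 := hord x
    apply orderOf_dvd_iff_pow_eq_one.1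
    interval_cases e
    · rw [hoe]; simp
    · rw [hoe, pow_one]
    · exfalso
      rw [hoe, sq] at h3
      exact hp.not_isUnit (h3 p dvd_rfl)
  obtain ⟨t, ht⟩ := hps
  have ht0 : t ≠ 0 := by
    rintro rfl
    exact hs.ne_zero (by rw [ht, mul_zero])
  have hts : t < s := by
    rw [ht]
    exact lt_mul_of_one_lt_left (Nat.pos_of_ne_zero ht0) hp.one_lt
  have hts' : t ∣ s := Dvd.intro_left _ ht.symm
  have htsq : Squarefree t := hs.squarefree_of_dvd hts'
  have hpt : Nat.Coprime p t := by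
    rw [ht] at hs
    exact (Nat.squarefree_mul_iff.1 hs).1
  have hidx : (P : Subgroup G).index = t ^ 2 := by
    have h2 := card_mul_index (P : Subgroup G)
    rw [hcP, hG, ht, mul_pow] at h2
    exact Nat.eq_of_mul_eq_mul_left (pow_pos hp.pos 2) h2
  obtain ⟨H, hH⟩ := exists_right_complement'_of_coprime (N := (P : Subgroup G)) (by
    rw [hcP, hidx]
    exact Nat.Coprime.pow 2 2 hpt)
  have hcH : Nat.card H = t ^ 2 := by
    have h2 := hH.card_mul_card
    rw [hcP, hG, ht, mul_pow] at h2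
    exact Nat.eq_of_mul_eq_mul_left (pow_pos hp.pos 2) h2
  have hPH : (P : Subgroup G) ⊓ H = ⊥ := disjoint_iff.1 hH.disjoint
  have hPHt : (P : Subgroup G) ⊔ H = ⊤ := hH.sup_eq_top
  have hKn : ∀ i, (K i).Normal := fun i => (hK i).1
  obtain ⟨V, hV, hVK⟩ := ih t hts H htsq hcH (fun g => by
      rw [← Subgroup.orderOf_coe]; exact hord g) (hsup.subgroup H)
    (fun i => (K i).subgroupOf H) (fun i => ⟨inferInstance, by
      obtain ⟨g, hg⟩ := (hK i).2
      exact exists_gen_subgroupOf hg⟩)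
    (fun i j hij => sup_subgroupOf hexp hcH hpt hPH hPHt (hKK i j hij))
    (sylow_transfer hs htsq hts' hG hcH hSyl)
  -- a normal line in `P`
  obtain ⟨W, hWn, hW0, hWc⟩ := hsup.exists_cyclic (P := (P : Subgroup G)) (by
    intro h
    rw [h, Subgroup.card_bot] at hcP
    exact (Nat.one_lt_pow two_ne_zero hp.one_lt).ne hcP)
  obtain ⟨c, hc⟩ := (Subgroup.isCyclic_iff_exists_zpowers_eq_top _).1 hWc
  have hcmem : c ∈ W ⊓ (P : Subgroup G) := by rw [← hc]; exact mem_zpowers c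
  have hoc : orderOf c = p := order_of_ne_one hexp hcmem.2 (by
    rintro rfl
    rw [zpowers_one_eq_bot] at hc
    exact hW0 hc.symm)
  have hcn : ∀ x : G, x * c * x⁻¹ ∈ zpowers c := by
    intro x
    rw [hc]
    exact Subgroup.mem_inf.2 ⟨hWn.conj_mem c hcmem.1 x, hPn.conj_mem c hcmem.2 x⟩
  have hsc : powSub (P : Subgroup G) = ⊤ ∨ ∃ i, (P : Subgroup G) ≤ K i ∧
      K i ≤ powSub (P : Subgroup G) := by
    have hnorm : ∀ x : G, x ∈ normalizer ((P : Subgroup G) : Set G) := by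
      intro x
      rw [normalizer_eq_top_iff.2 hPn]; trivial
    rcases hSyl p hp P with h | ⟨i, h1, h2⟩
    · left
      rw [eq_top_iff]
      intro x _ y hy
      exact h x (mem_top x) (hnorm x) y hy
    · right
      exact ⟨i, h1, fun x hx y hy => h2 x hx (hnorm x) y hy⟩
  obtain ⟨a, ha, hane⟩ := exists_lines hcP hexp (by rw [hidx]; exact hpt.pow_right 2) hK hKK hsc
    hcmem.2 hoc hcn
  have hstab : ∀ i, ∀ b ∈ (V i).map H.subtype, ∀ x ∈ zpowers (a i), b * x * b⁻¹ ∈ zpowers (a i) := by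
    intro i b hb x hx
    obtain ⟨v, hv, rfl⟩ := hb
    exact zpow_conj_mem ((ha i).2.2.2 _ (mem_subgroupOf.1 (hVK i hv))) hx
  have hzP : ∀ i, zpowers (a i) ≤ (P : Subgroup G) := fun i => zpowers_le.2 (ha i).1
  have hVH : ∀ i, (V i).map H.subtype ≤ H := fun i => map_subtype_le (V i)
  refine ⟨fun i => prodSub (zpowers (a i)) ((V i).map H.subtype) (hstab i), ⟨?_, ?_⟩, ?_⟩
  · intro i
    rw [card_prodSub (hstab i) (by
      rw [eq_bot_iff, ← hPH]
      exact inf_le_inf (hzP i) (hVH i)), Nat.card_zpowers, (ha i).2.2.1,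
      card_map_of_injective (subtype_injective H), hV.1, ht]
  · intro i j hij
    rw [eq_bot_iff]
    rintro x ⟨hxi, hxj⟩
    obtain ⟨y, hy, v, hv, rfl⟩ := hxi
    obtain ⟨y', hy', v', hv', he⟩ := hxj
    obtain ⟨e1, e2⟩ := unique_parts hPH (hzP i hy) (hzP j hy') (hVH i hv) (hVH j hv') he
    have h2 : y ∈ zpowers (a i) ⊓ zpowers (a j) := Subgroup.mem_inf.2 ⟨hy, by rw [e1]; exact hy'⟩
    rw [zpowers_inf_eq_bot (ha i).2.2.1 (ha j).2.2.1 (hane i j hij), mem_bot] at h2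
    have h3 : v ∈ (V i).map H.subtype ⊓ (V j).map H.subtype :=
      Subgroup.mem_inf.2 ⟨hv, by rw [e2]; exact hv'⟩
    rw [← map_inf_eq _ _ _ (subtype_injective H), hV.2 i j hij, Subgroup.map_bot, mem_bot] at h3
    rw [mem_bot, h2, h3, one_mul]
  · intro i x hx
    obtain ⟨y, hy, v, hv, rfl⟩ := hx
    apply (K i).mul_mem
    · exact (zpowers_le.2 (ha i).2.1) hy
    · obtain ⟨w, hw, rfl⟩ := hv
      exact mem_subgroupOf.1 (hVK i hw)

end Pool.Agent.Lib_MP_53dcbc_co
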