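import Pool.Agent.Lib_MP_53dcbc_co.Necessity

namespace Pool.Agent.Lib_MP_53dcbc_co

open Subgroup
open scoped Pointwise commutatorElement

universe u

/-- a subgroup of a group that is cyclic modulo a normal subgroup is cyclic modulo it -/
theorem exists_gen_mod {G : Type u} [Group G] {M H : Subgroup G} [M.Normal] {g : G}
    (hH : H ≤ M ⊔ zpowers g) : ∃ h ∈ H, H ≤ M ⊔ zpowers h := by
  have h1 : H.map (QuotientGroup.mk' M) ≤ zpowers (QuotientGroup.mk' M g) := by
    refine (map_mono hH).trans ?_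
    rw [Subgroup.map_sup, QuotientGroup.map_mk'_self, bot_sup_eq, MonoidHom.map_zpowers]
  have h2 : IsCyclic (zpowers (QuotientGroup.mk' M g)) := inferInstance
  have h3 : IsCyclic (H.map (QuotientGroup.mk' M)) := isCyclic_of_le h1
  obtain ⟨z, hz⟩ := (Subgroup.isCyclic_iff_exists_zpowers_eq_top _).1 h3
  have hz1 : z ∈ H.map (QuotientGroup.mk' M) := by rw [← hz]; exact mem_zpowers z
  obtain ⟨h, hh, rfl⟩ := hz1
  refine ⟨h, hh, fun x hx => ?_⟩
  have h4 : QuotientGroup.mk' M x ∈ zpowers (QuotientGroup.mk' M h) := by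
    rw [hz]; exact mem_map_of_mem _ hx
  obtain ⟨k, hk⟩ := h4
  simp only at hk
  have h5 : x * (h ^ k)⁻¹ ∈ M := by
    rw [← QuotientGroup.ker_mk' M, MonoidHom.mem_ker]
    simp only [map_mul, map_inv, map_zpow]
    rw [hk, mul_inv_cancel]
  have h6 : x = (x * (h ^ k)⁻¹) * h ^ k := by group
  rw [h6]
  exact mul_mem_sup h5 (zpow_mem (mem_zpowers h) k)

theorem Supersolvable.subgroup {G : Type u} [Group G] (hG : Supersolvable G) (H : Subgroup G) :
    Supersolvable H := by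
  obtain ⟨n, N, h0, hn, hnor, hstep⟩ := hG
  refine ⟨n, fun i => (N i).subgroupOf H, ?_, ?_, ?_, ?_⟩
  · simp only [h0, bot_subgroupOf]
  · simp only [hn, top_subgroupOf]
  · intro i
    have := hnor i
    infer_instance
  · intro i hi
    have := hnor i
    obtain ⟨hle, g, hg, hg2⟩ := hstep i hi
    refine ⟨fun x hx => hle hx, ?_⟩
    obtain ⟨h, hh, hh2⟩ := exists_gen_mod (M := N i) (H := N (i + 1) ⊓ H) (g := g)
      (inf_le_left.trans hg2)
    refine ⟨⟨h, hh.2⟩, hh.1, ?_⟩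
    intro x hx
    have h1 : (x : G) ∈ N i ⊔ zpowers h := hh2 ⟨hx, x.2⟩
    obtain ⟨a, ha, b, ⟨k, hk⟩, hab⟩ := mem_sup_of_normal_left.1 h1
    simp only at hk
    have h2 : x * ((⟨h, hh.2⟩ : H) ^ k)⁻¹ ∈ (N i).subgroupOf H := by
      rw [mem_subgroupOf]
      push_cast
      rw [← hab, hk]
      simpa using ha
    have h3 : x = x * ((⟨h, hh.2⟩ : H) ^ k)⁻¹ * (⟨h, hh.2⟩ : H) ^ k := by group
    rw [h3]
    exact mul_mem_sup h2 (zpow_mem (mem_zpowers _) k)

theorem Supersolvable.quotient {G : Type u} [Group G] (hG : Supersolvable G) (C : Subgroup G)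
    [C.Normal] : Supersolvable (G ⧸ C) := by
  obtain ⟨n, N, h0, hn, hnor, hstep⟩ := hG
  refine ⟨n, fun i => (N i).map (QuotientGroup.mk' C), ?_, ?_, ?_, ?_⟩
  · simp only [h0, Subgroup.map_bot]
  · simp only [hn]
    exact map_top_of_surjective _ (QuotientGroup.mk'_surjective C)
  · intro i
    exact (hnor i).map _ (QuotientGroup.mk'_surjective C)
  · intro i hi
    obtain ⟨hle, g, hg, hg2⟩ := hstep i hi
    refine ⟨map_mono hle, QuotientGroup.mk' C g, mem_map_of_mem _ hg, ?_⟩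
    have := map_mono (f := QuotientGroup.mk' C) hg2
    rw [Subgroup.map_sup, MonoidHom.map_zpowers] at this
    exact this

/-- the first member of the chain meeting `P` -/
theorem Supersolvable.exists_cyclic {G : Type u} [Group G] (hG : Supersolvable G)
    {P : Subgroup G} (hP : P ≠ ⊥) : ∃ W : Subgroup G, W.Normal ∧ W ⊓ P ≠ ⊥ ∧
      IsCyclic (W ⊓ P : Subgroup G) := by
  obtain ⟨n, N, h0, hn, hnor, hstep⟩ := hG
  classical
  have hex : ∃ i, N i ⊓ P ≠ ⊥ := ⟨n, by rw [hn, top_inf_eq]; exact hP⟩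
  obtain ⟨j, hj1, hj2, hjn⟩ : ∃ j, N j ⊓ P = ⊥ ∧ N (j + 1) ⊓ P ≠ ⊥ ∧ j < n := by
    have h1 := Nat.find_spec hex
    have h2 : Nat.find hex ≠ 0 := by
      intro h
      rw [h, h0] at h1
      exact h1 (bot_inf_eq _)
    obtain ⟨j, hj⟩ := Nat.exists_eq_succ_of_ne_zero h2
    have h3 : ¬ N j ⊓ P ≠ ⊥ := Nat.find_min hex (by omega)
    have h4 : Nat.find hex ≤ n := Nat.find_min' hex (by rw [hn, top_inf_eq]; exact hP)
    refine ⟨j, not_not.1 h3, ?_, by omega⟩
    rw [hj] at h1; exact h1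
  refine ⟨N (j + 1), hnor _, hj2, ?_⟩
  have := hnor j
  obtain ⟨hle, g, hg, hg2⟩ := hstep j hjn
  have h1 : (N (j + 1) ⊓ P).map (QuotientGroup.mk' (N j)) ≤
      zpowers (QuotientGroup.mk' (N j) g) := by
    refine (map_mono (inf_le_left.trans hg2)).trans ?_
    rw [Subgroup.map_sup, QuotientGroup.map_mk'_self, bot_sup_eq, MonoidHom.map_zpowers]
  have h3 : IsCyclic ((N (j + 1) ⊓ P).map (QuotientGroup.mk' (N j))) := isCyclic_of_le h1
  let f : (N (j + 1) ⊓ P : Subgroup G) →* ((N (j + 1) ⊓ P).map (QuotientGroup.mk' (N j))) :=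
    (QuotientGroup.mk' (N j)).subgroupMap _
  have hf : Function.Injective f := by
    rw [injective_iff_map_eq_one]
    intro x hx
    have h4 : QuotientGroup.mk' (N j) (x : G) = 1 := congrArg Subtype.val hx
    have h5 : (x : G) ∈ N j := by
      rw [← QuotientGroup.ker_mk' (N j), MonoidHom.mem_ker]; exact h4
    have h6 : (x : G) ∈ N j ⊓ P := Subgroup.mem_inf.2 ⟨h5, x.2.2⟩
    rw [hj1, mem_bot] at h6
    exact Subtype.ext h6
  exact isCyclic_of_injective f hf

theorem Supersolvable.exists_prime_normal {G : Type u} [Group G] [Finite G] [Nontrivial G]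
    (hG : Supersolvable G) : ∃ (r : ℕ) (C : Subgroup G), r.Prime ∧ C.Normal ∧ Nat.card C = r := by
  obtain ⟨W, hWn, hW, hWc⟩ := hG.exists_cyclic (P := ⊤) top_ne_bot
  rw [inf_top_eq] at hW hWc
  obtain ⟨g, hg⟩ := (Subgroup.isCyclic_iff_exists_zpowers_eq_top W).1 hWc
  have hg1 : orderOf g ≠ 1 := by
    intro h
    rw [orderOf_eq_one_iff] at h
    apply hW
    rw [← hg, h, zpowers_one_eq_bot]
  have hr : (orderOf g).minFac.Prime := Nat.minFac_prime hg1
  set r := (orderOf g).minFac with hrdef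
  obtain ⟨m, hm⟩ := Nat.minFac_dvd (orderOf g)
  have hm0 : m ≠ 0 := by
    rintro rfl
    rw [mul_zero] at hm
    exact (orderOf_pos g).ne' hm
  refine ⟨r, zpowers (g ^ m), hr, ⟨fun x hx y => ?_⟩, ?_⟩
  · obtain ⟨k, rfl⟩ := hx
    simp only
    have h1 : y * g * y⁻¹ ∈ zpowers g := by
      rw [hg]
      apply hWn.conj_mem
      rw [← hg]; exact mem_zpowers g
    obtain ⟨l, hl⟩ := h1
    simp only at hl
    refine ⟨l * k, ?_⟩
    simp only
    rw [← conj_zpow, ← conj_pow, ← hl, ← zpow_natCast, ← zpow_natCast, ← zpow_mul, ← zpow_mul,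
      ← zpow_mul]
    congr 1; ring
  · rw [Nat.card_zpowers, orderOf_pow_of_dvd hm0 (by rw [hm]; exact Dvd.intro_left _ rfl), hm,
      Nat.mul_div_cancel _ (Nat.pos_of_ne_zero hm0)]

/-- a `p`-element acts trivially on a normal subgroup of smaller prime order -/
theorem commute_of_small_prime {G : Type u} [Group G] [Finite G] {p r : ℕ} (hp : p.Prime)
    (hr : r.Prime) (hrp : r < p) {C : Subgroup G} [C.Normal] (hC : Nat.card C = r) {x : G}
    {k : ℕ} (hx : x ^ p ^ k = 1) {c : G} (hc : c ∈ C) : Commute x c := by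
  have : Fact r.Prime := ⟨hr⟩
  have hcyc : IsCyclic C := isCyclic_of_prime_card hC
  have h1 : Nat.card (MulAut C) = r - 1 := by
    rw [IsCyclic.card_mulAut, hC, Nat.totient_prime hr]
  have h2 : (MulAut.conjNormal x : MulAut C) ^ p ^ k = 1 := by
    rw [← map_pow, hx, map_one]
  have h3 : (MulAut.conjNormal x : MulAut C) ^ (r - 1) = 1 := by
    rw [← h1]; exact pow_card_eq_one'
  have h4 : orderOf (MulAut.conjNormal x : MulAut C) = 1 := by
    have h5 : Nat.Coprime (p ^ k) (r - 1) := by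
      apply Nat.Coprime.pow_left
      rw [Nat.Prime.coprime_iff_not_dvd hp]
      intro h
      have := Nat.le_of_dvd (by have := hr.two_le; omega) h
      omega
    exact Nat.eq_one_of_dvd_coprimes h5 (orderOf_dvd_of_pow_eq_one h2)
      (orderOf_dvd_of_pow_eq_one h3)
  rw [orderOf_eq_one_iff] at h4
  have h5 : (MulAut.conjNormal x : MulAut C) ⟨c, hc⟩ = ⟨c, hc⟩ := by rw [h4]; rfl
  have h6 := congrArg Subtype.val h5
  rw [MulAut.conjNormal_apply] at h6
  exact mul_inv_eq_iff_eq_mul.1 h6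

end Pool.Agent.Lib_MP_53dcbc_co
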