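import Pool.Agent.Lib_MP_53dcbc_co.Super

namespace Pool.Agent.Lib_MP_53dcbc_co

open Subgroup
open scoped Pointwise commutatorElement

universe u

theorem Supersolvable.sylow_normal (n : ℕ) : ∀ (G : Type u) [Group G] [Finite G],
    Nat.card G = n → Supersolvable G → ∀ (p : ℕ) [Fact p.Prime],
    (∀ r, r.Prime → r ∣ n → r ≤ p) → ∀ P : Sylow p G, (P : Subgroup G).Normal := by
  induction n using Nat.strong_induction_on with
  | _ n ih =>
  intro G _ _ hn hG p hp hle P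
  rcases subsingleton_or_nontrivial G with hsub | hnt
  · have h1 : (P : Subgroup G) = ⊥ := Subsingleton.elim _ _
    rw [h1]; infer_instance
  obtain ⟨r, C, hr, hCn, hC⟩ := hG.exists_prime_normal
  have hcard : Nat.card (G ⧸ C) * r = n := by
    rw [← hn, ← hC]
    exact (card_eq_card_quotient_mul_card_subgroup C).symm
  have hpos : 0 < Nat.card (G ⧸ C) := Nat.card_pos
  have hlt : Nat.card (G ⧸ C) < n := by
    rw [← hcard]
    exact lt_mul_of_one_lt_right hpos hr.one_lt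
  have hPn : ((P.mapSurjective (QuotientGroup.mk'_surjective C) : Sylow p (G ⧸ C)) :
      Subgroup (G ⧸ C)).Normal := by
    apply ih _ hlt _ rfl (hG.quotient C) p
    intro q hq hd
    exact hle q hq (hd.trans (by rw [← hcard]; exact Dvd.intro _ rfl))
  rw [Sylow.coe_mapSurjective] at hPn
  have h1 : ((P : Subgroup G) ⊔ C).Normal := by
    have h2 := hPn.comap (QuotientGroup.mk' C)
    rw [comap_map_eq, QuotientGroup.ker_mk'] at h2
    exact h2
  have hrp : r ≤ p := hle r hr (by rw [← hcard]; exact Dvd.intro_left _ rfl)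
  rcases eq_or_lt_of_le hrp with h | h
  · have h3 : IsPGroup p C := IsPGroup.of_card (n := 1) (by rw [hC, h, pow_one])
    have h4 : C ≤ P := h3.le_sylow_of_normal P
    rw [sup_eq_left.2 h4] at h1
    exact h1
  · obtain ⟨e, he⟩ := P.isPGroup'.exists_card_eq
    have hpow : ∀ x ∈ (P : Subgroup G), x ^ p ^ e = 1 := by
      intro x hx
      have h5 : (⟨x, hx⟩ : (P : Subgroup G)) ^ Nat.card (P : Subgroup G) = 1 := pow_card_eq_one'
      rw [he] at h5
      exact congrArg Subtype.val h5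
    refine ⟨fun x hx g => ?_⟩
    have h5 : g * x * g⁻¹ ∈ (P : Subgroup G) ⊔ C := h1.conj_mem x (le_sup_left (b := C) hx) g
    obtain ⟨y, hy, c, hc, hyc⟩ := mem_sup_of_normal_right.1 h5
    have hcomm : Commute y c := commute_of_small_prime hp.out hr h hC (hpow y hy) hc
    have h6 : c ^ p ^ e = 1 := by
      have h7 : (y * c) ^ p ^ e = 1 := by
        rw [hyc, conj_pow, hpow x hx]; simp
      rw [hcomm.mul_pow, hpow y hy, one_mul] at h7
      exact h7
    have h8 : c ^ r = 1 := by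
      have h5 : (⟨c, hc⟩ : C) ^ Nat.card C = 1 := pow_card_eq_one'
      rw [hC] at h5
      exact congrArg Subtype.val h5
    have h9 : orderOf c = 1 := by
      have h10 : Nat.Coprime (p ^ e) r := by
        apply Nat.Coprime.pow_left
        exact (Nat.coprime_primes hp.out hr).2 (by omega)
      exact Nat.eq_one_of_dvd_coprimes h10 (orderOf_dvd_of_pow_eq_one h6)
        (orderOf_dvd_of_pow_eq_one h8)
    rw [orderOf_eq_one_iff] at h9
    rw [← hyc, h9, mul_one]
    exact hy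

/-- the product of two subgroups, one normalising the other -/
def prodSub {G : Type u} [Group G] (A B : Subgroup G) (h : ∀ b ∈ B, ∀ a ∈ A, b * a * b⁻¹ ∈ A) :
    Subgroup G where
  carrier := {x | ∃ a ∈ A, ∃ b ∈ B, x = a * b}
  mul_mem' := by
    rintro _ _ ⟨a, ha, b, hb, rfl⟩ ⟨a', ha', b', hb', rfl⟩
    refine ⟨a * (b * a' * b⁻¹), A.mul_mem ha (h b hb a' ha'), b * b', B.mul_mem hb hb', ?_⟩
    group
  one_mem' := ⟨1, A.one_mem, 1, B.one_mem, by simp⟩
  inv_mem' := by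
    rintro _ ⟨a, ha, b, hb, rfl⟩
    refine ⟨b⁻¹ * a⁻¹ * b⁻¹⁻¹, h b⁻¹ (B.inv_mem hb) a⁻¹ (A.inv_mem ha), b⁻¹, B.inv_mem hb, ?_⟩
    group

theorem mem_prodSub {G : Type u} [Group G] {A B : Subgroup G}
    {h : ∀ b ∈ B, ∀ a ∈ A, b * a * b⁻¹ ∈ A} {x : G} :
    x ∈ prodSub A B h ↔ ∃ a ∈ A, ∃ b ∈ B, x = a * b := Iff.rfl

theorem card_prodSub {G : Type u} [Group G] {A B : Subgroup G}
    (h : ∀ b ∈ B, ∀ a ∈ A, b * a * b⁻¹ ∈ A) (hAB : A ⊓ B = ⊥) :
    Nat.card (prodSub A B h) = Nat.card A * Nat.card B := by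
  rw [← Nat.card_prod]
  symm
  refine Nat.card_congr (Equiv.ofBijective
    (fun x : A × B => (⟨x.1 * x.2, ⟨x.1, x.1.2, x.2, x.2.2, rfl⟩⟩ : prodSub A B h)) ⟨?_, ?_⟩)
  · rintro ⟨a, b⟩ ⟨a', b'⟩ hab
    have h1 : (a : G) * b = a' * b' := congrArg Subtype.val hab
    have h2 := mul_injective_of_disjoint (disjoint_iff.2 hAB) (a₁ := (a, b)) (a₂ := (a', b')) h1
    exact h2
  · rintro ⟨_, a, ha, b, hb, rfl⟩
    exact ⟨(⟨a, ha⟩, ⟨b, hb⟩), rfl⟩

end Pool.Agent.Lib_MP_53dcbc_co
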