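import Pool.Agent.Lib_MP_53dcbc_co.Pick

namespace Pool.Agent.Lib_MP_53dcbc_co

open Subgroup
open scoped Pointwise commutatorElement

universe u

variable {G : Type u} [Group G] [Finite G] {p : ℕ} [hp : Fact p.Prime] {P : Subgroup G}

theorem mem_of_mem_zpowers {K : Subgroup G} {a b : G} (ha : a ∈ K) (hb : b ∈ zpowers a) : b ∈ K :=
  (zpowers_le.2 ha) hb

theorem exists_pair [hPn : P.Normal] (hcP : Nat.card P = p ^ 2)
    (hexp : ∀ x ∈ P, x ^ p = 1) (hidx : Nat.Coprime p P.index) {K₀ K L : Subgroup G}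
    [hKn : K.Normal] [hLn : L.Normal] {g₀ gK gL : G} (hg₀ : zpowers g₀ ⊔ K₀ = ⊤)
    (hgK : zpowers gK ⊔ K = ⊤) (hgL : zpowers gL ⊔ L = ⊤) (hKL : K ⊔ L = ⊤)
    (hK₀ : K₀ ≤ powSub P) {c₁ : G} (hc₁ : c₁ ∈ P) (hoc₁ : orderOf c₁ = p)
    (hcn₁ : ∀ x : G, x * c₁ * x⁻¹ ∈ zpowers c₁) :
    ∃ a ∈ P, ∃ b ∈ P, a ∈ K ∧ b ∈ L ∧ orderOf a = p ∧ orderOf b = p ∧ b ∉ zpowers a ∧
      (∀ x : G, x * a * x⁻¹ ∈ zpowers a) ∧ (∀ x : G, x * b * x⁻¹ ∈ zpowers b) := by
  by_cases hne : powSub P = ⊤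
  · have hall : ∀ y ∈ P, ∀ x : G, x * y * x⁻¹ ∈ zpowers y := by
      intro y hy x
      exact mem_powSub.1 (show x ∈ powSub P by rw [hne]; trivial) y hy
    by_cases hPL : P ≤ L
    · obtain ⟨a, haP, haK, hoa⟩ : ∃ a ∈ P, a ∈ K ∧ orderOf a = p := by
        by_cases hPK : P ≤ K
        · exact ⟨c₁, hc₁, hPK hc₁, hoc₁⟩
        · obtain ⟨b, hb, hob⟩ := inf_line hcP hexp hgK hPK
          have h1 : b ∈ K ⊓ P := by rw [hb]; exact mem_zpowers b
          exact ⟨b, h1.2, h1.1, hob⟩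
      obtain ⟨b, hb, hba⟩ := exists_notMem_zpowers hcP hoa
      have hob : orderOf b = p := order_of_ne_one hexp hb (by
        rintro rfl
        exact hba (one_mem _))
      exact ⟨a, haP, b, hb, haK, hPL hb, hoa, hob, hba, hall a haP, hall b hb⟩
    · obtain ⟨b, hb, hob⟩ := inf_line hcP hexp hgL hPL
      have hb1 : b ∈ L ⊓ P := by rw [hb]; exact mem_zpowers b
      have h1 := not_inf_le hexp hidx (K := L) (L := K) (by rw [sup_comm]; exact hKL) hPL
      obtain ⟨a, ha, haL⟩ := SetLike.not_le_iff_exists.1 h1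
      have ha1 : a ≠ 1 := by
        rintro rfl
        exact haL (one_mem _)
      have hoa : orderOf a = p := order_of_ne_one hexp ha.2 ha1
      refine ⟨a, ha.2, b, hb1.2, ha.1, hb1.1, hoa, hob, ?_, hall a ha.2, hall b hb1.2⟩
      intro h
      apply haL
      by_contra h2
      exact notMem_symm hob hoa (fun h3 => h2 (mem_of_mem_zpowers hb1.1 h3)) h
  · obtain ⟨c₂, hc₂, hoc₂, hc₂₁, hcn₂⟩ := exists_second_line hcP hexp hidx hK₀ hg₀ hne hc₁ hoc₁ hcn₁
    have key : ∀ (M : Subgroup G), M.Normal → ∀ g : G, zpowers g ⊔ M = ⊤ → ¬ P ≤ M →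
        ∃ b, M ⊓ P = zpowers b ∧ orderOf b = p ∧ (b ∈ zpowers c₁ ∨ b ∈ zpowers c₂) := by
      intro M hM g hg hPM
      obtain ⟨b, hb, hob⟩ := inf_line hcP hexp hg hPM
      have hb1 : b ∈ M ⊓ P := by rw [hb]; exact mem_zpowers b
      refine ⟨b, hb, hob, ?_⟩
      by_contra hcon
      push Not at hcon
      apply hne
      rw [eq_top_iff]
      intro x _ y hy
      have hbx : x * b * x⁻¹ ∈ zpowers b := by
        rw [← hb]
        exact Subgroup.mem_inf.2 ⟨hM.conj_mem b hb1.1 x, hPn.conj_mem b hb1.2 x⟩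
      obtain ⟨k, hk⟩ := scalar_of_three hcP hc₁ hc₂ hb1.2 hoc₁ hoc₂ hc₂₁ hcon.1 hcon.2
        (hcn₁ x) (hcn₂ x) hbx
      rw [hk y hy]
      exact zpow_mem (mem_zpowers y) k
    have hor : ∀ (M : Subgroup G), M.Normal → ∀ g : G, zpowers g ⊔ M = ⊤ → c₁ ∈ M ∨ c₂ ∈ M := by
      intro M hM g hg
      by_cases hPM : P ≤ M
      · exact Or.inl (hPM hc₁)
      · obtain ⟨b, hb, hob, h⟩ := key M hM g hg hPM
        have hb1 : b ∈ M ⊓ P := by rw [hb]; exact mem_zpowers b
        rcases h with h | h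
        · left
          by_contra h2
          exact notMem_symm hob hoc₁ (fun h3 => h2 (mem_of_mem_zpowers hb1.1 h3)) h
        · right
          by_contra h2
          exact notMem_symm hob hoc₂ (fun h3 => h2 (mem_of_mem_zpowers hb1.1 h3)) h
    -- if both miss `c` then they both meet `P` in the other line
    have hboth : ∀ c c' : G, (∀ (M : Subgroup G), M.Normal → ∀ g : G, zpowers g ⊔ M = ⊤ →
        ¬ P ≤ M → ∃ b, M ⊓ P = zpowers b ∧ orderOf b = p ∧ (b ∈ zpowers c ∨ b ∈ zpowers c')) →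
        orderOf c = p → orderOf c' = p → c ∈ P → c' ∈ P → c ∈ K ∨ c ∈ L := by
      intro c c' hkey hoc hoc' hcP' hcP''
      by_contra hcon
      push Not at hcon
      have hPK : ¬ P ≤ K := fun h => hcon.1 (h hcP')
      have hPL : ¬ P ≤ L := fun h => hcon.2 (h hcP')
      obtain ⟨b, hb, hob, hbc⟩ := hkey K hKn gK hgK hPK
      obtain ⟨b', hb', hob', hbc'⟩ := hkey L hLn gL hgL hPL
      have hb1 : b ∈ K ⊓ P := by rw [hb]; exact mem_zpowers b
      have hb1' : b' ∈ L ⊓ P := by rw [hb']; exact mem_zpowers b'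
      have e1 : b ∈ zpowers c' := by
        rcases hbc with h | h
        · exfalso
          exact notMem_symm hob hoc (fun h3 => hcon.1 (mem_of_mem_zpowers hb1.1 h3)) h
        · exact h
      have e1' : b' ∈ zpowers c' := by
        rcases hbc' with h | h
        · exfalso
          exact notMem_symm hob' hoc (fun h3 => hcon.2 (mem_of_mem_zpowers hb1'.1 h3)) h
        · exact h
      have e2 : c' ∈ K := by
        by_contra h2
        exact notMem_symm hob hoc' (fun h3 => h2 (mem_of_mem_zpowers hb1.1 h3)) e1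
      apply not_inf_le hexp hidx (K := K) (L := L) hKL hPK
      rw [hb', zpowers_le]
      exact mem_of_mem_zpowers e2 e1'
    have h1 := hor K hKn gK hgK
    have h2 := hor L hLn gL hgL
    have h3 := hboth c₁ c₂ key hoc₁ hoc₂ hc₁ hc₂
    have h4 := hboth c₂ c₁ (fun M hM g hg hPM => by
      obtain ⟨b, hb, hob, h⟩ := key M hM g hg hPM
      exact ⟨b, hb, hob, h.symm⟩) hoc₂ hoc₁ hc₂ hc₁
    have h5 : (c₁ ∈ K ∧ c₂ ∈ L) ∨ (c₂ ∈ K ∧ c₁ ∈ L) := by tauto
    rcases h5 with ⟨h6, h7⟩ | ⟨h6, h7⟩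
    · exact ⟨c₁, hc₁, c₂, hc₂, h6, h7, hoc₁, hoc₂, hc₂₁, hcn₁, hcn₂⟩
    · exact ⟨c₂, hc₂, c₁, hc₁, h6, h7, hoc₂, hoc₁, notMem_symm hoc₁ hoc₂ hc₂₁, hcn₂, hcn₁⟩

theorem exists_lines [hPn : P.Normal] (hcP : Nat.card P = p ^ 2)
    (hexp : ∀ x ∈ P, x ^ p = 1) (hidx : Nat.Coprime p P.index) {K : Fin 3 → Subgroup G}
    (hK : ∀ i, (K i).Normal ∧ ∃ g : G, zpowers g ⊔ K i = ⊤)
    (hKK : ∀ i j, i ≠ j → K i ⊔ K j = ⊤)
    (hsc : powSub P = ⊤ ∨ ∃ i, P ≤ K i ∧ K i ≤ powSub P)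
    {c₁ : G} (hc₁ : c₁ ∈ P) (hoc₁ : orderOf c₁ = p)
    (hcn₁ : ∀ x : G, x * c₁ * x⁻¹ ∈ zpowers c₁) :
    ∃ a : Fin 3 → G, (∀ i, a i ∈ P ∧ a i ∈ K i ∧ orderOf (a i) = p ∧
      ∀ x ∈ K i, x * a i * x⁻¹ ∈ zpowers (a i)) ∧ ∀ i j, i ≠ j → a j ∉ zpowers (a i) := by
  have hKn : ∀ i, (K i).Normal := fun i => (hK i).1
  choose g hg using fun i => (hK i).2
  by_cases hB : ∃ i, P ≤ K i ∧ K i ≤ powSub P
  · obtain ⟨i₀, hPi, hKi⟩ := hB
    obtain ⟨j, k, hjk, hji, hki⟩ := fin3_two i₀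
    obtain ⟨a, haP, b, hbP, haK, hbK, hoa, hob, hba, han, hbn⟩ :=
      exists_pair hcP hexp hidx (hg i₀) (hg j) (hg k) (hKK j k hjk) hKi hc₁ hoc₁ hcn₁
    have hab := notMem_symm hoa hob hba
    have habP : a * b ∈ P := P.mul_mem haP hbP
    have h1 : a * b ∉ zpowers a := by
      intro h
      apply hba
      exact ((zpowers a).mul_mem_cancel_left (mem_zpowers a)).1 h
    have h2 : a * b ∉ zpowers b := by
      intro h
      apply hab
      exact ((zpowers b).mul_mem_cancel_right (mem_zpowers b)).1 h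
    have hoab : orderOf (a * b) = p := order_of_ne_one hexp habP (by
      intro h
      rw [h] at h1
      exact h1 (one_mem _))
    have h3 := notMem_symm hoa hoab h1
    have h4 := notMem_symm hob hoab h2
    have hcase : ∀ l : Fin 3, l = j ∨ l = k ∨ l = i₀ := by
      intro l
      by_cases hl : l = i₀
      · exact Or.inr (Or.inr hl)
      · rcases fin3_cases j k i₀ l hjk hji hki hl with h | h
        · exact Or.inl h
        · exact Or.inr (Or.inl h)
    let f : Fin 3 → G := fun l => if l = j then a else if l = k then b else a * b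
    have fj : f j = a := by simp [f]
    have fk : f k = b := by simp [f, hjk.symm]
    have fi : f i₀ = a * b := by simp [f, hji.symm, hki.symm]
    refine ⟨f, ?_, ?_⟩
    · intro l
      rcases hcase l with h | h | h
      · subst h; rw [fj]; exact ⟨haP, haK, hoa, fun x _ => han x⟩
      · subst h; rw [fk]; exact ⟨hbP, hbK, hob, fun x _ => hbn x⟩
      · subst h; rw [fi]; exact ⟨habP, hPi habP, hoab, fun x hx => hKi hx _ habP⟩
    · intro l m hlm
      rcases hcase l with h | h | h <;> rcases hcase m with h' | h' | h' <;>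
        first
        | (exact absurd (h.trans h'.symm) hlm)
        | (rw [h, h', fj, fk]; exact hba)
        | (rw [h, h', fj, fi]; exact h1)
        | (rw [h, h', fk, fj]; exact hab)
        | (rw [h, h', fk, fi]; exact h2)
        | (rw [h, h', fi, fj]; exact h3)
        | (rw [h, h', fi, fk]; exact h4)
  · have htop : powSub P = ⊤ := by
      rcases hsc with h | h
      · exact h
      · exact absurd h hB
    have hPK : ∀ i, ¬ P ≤ K i := by
      intro i h
      exact hB ⟨i, h, by rw [htop]; exact le_top⟩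
    choose b hb hob using fun i => inf_line hcP hexp (hg i) (hPK i)
    have hb1 : ∀ i, b i ∈ K i ⊓ P := fun i => by rw [hb i]; exact mem_zpowers (b i)
    refine ⟨b, fun i => ⟨(hb1 i).2, (hb1 i).1, hob i, fun x _ => ?_⟩, fun i j hij h => ?_⟩
    · exact mem_powSub.1 (show x ∈ powSub P by rw [htop]; trivial) _ (hb1 i).2
    · apply not_inf_le hexp hidx (K := K i) (L := K j) (hKK i j hij) (hPK i)
      rw [hb j, zpowers_le]
      exact mem_of_mem_zpowers (hb1 i).1 h

end Pool.Agent.Lib_MP_53dcbc_co
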